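import Mathlib.Algebra.Group.PUnit
import Mathlib.Tactic.SuppressCompilation
import Mathlib.Algebra.Group.MinimalAxioms
import Mathlib.GroupTheory.Frattini
import Mathlib.Order.CompletePartialOrder

/-!
Saturated formations of finite groups: basic closure properties.
-/

set_option autoImplicit false
set_option linter.unusedSectionVars false

namespace Pool.Agent.MP_9bf990_al

/-- A saturated formation of finite groups. -/
structure SatForm where
  F : (G : Type) → [Group G] → Prop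
  fin : ∀ (G : Type) [Group G], F G → Finite G
  iso : ∀ (G H : Type) [Group G] [Group H], Nonempty (G ≃* H) → F G → F H
  unit : F Unit
  quot : ∀ (G : Type) [Group G] [Finite G] (N : Subgroup G) [N.Normal], F G → F (G ⧸ N)
  sub : ∀ (G : Type) [Group G] [Finite G] (N₁ N₂ : Subgroup G) [N₁.Normal] [N₂.Normal],
          F (G ⧸ N₁) → F (G ⧸ N₂) → F (G ⧸ (N₁ ⊓ N₂))
  sat : ∀ (G : Type) [Group G] [Finite G], F (G ⧸ frattini G) → F G

namespace SatForm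

variable (𝔉 : SatForm)

theorem of_equiv {G H : Type} [Group G] [Group H] (e : G ≃* H) (h : 𝔉.F G) : 𝔉.F H :=
  𝔉.iso G H ⟨e⟩ h

theorem of_surj {G H : Type} [Group G] [Group H] (f : G →* H) (hf : Function.Surjective f)
    (h : 𝔉.F G) : 𝔉.F H := by
  have := 𝔉.fin G h
  exact 𝔉.of_equiv (QuotientGroup.quotientKerEquivOfSurjective f hf) (𝔉.quot G f.ker h)

theorem quot_ker {G H : Type} [Group G] [Group H] (f : G →* H) (hf : Function.Surjective f)
    (h : 𝔉.F H) : 𝔉.F (G ⧸ f.ker) :=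
  𝔉.of_equiv (QuotientGroup.quotientKerEquivOfSurjective f hf).symm h

theorem of_quot_bot {G : Type} [Group G] (N : Subgroup G) [N.Normal] (hN : N = ⊥)
    (h : 𝔉.F (G ⧸ N)) : 𝔉.F G := by
  subst hN
  exact 𝔉.of_equiv QuotientGroup.quotientBot h

theorem of_subsingleton (G : Type) [Group G] [Subsingleton G] : 𝔉.F G := by
  have : Unique G := uniqueOfSubsingleton 1
  exact 𝔉.of_equiv (MulEquiv.ofUnique (M := Unit) (N := G)) 𝔉.unit

/-- If a surjection kills a normal subgroup with quotient in the class, the target is in it. -/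
theorem of_surj_quot {G H : Type} [Group G] [Group H] (f : G →* H) (hf : Function.Surjective f)
    (N : Subgroup G) [N.Normal] (hN : ∀ x ∈ N, f x = 1) (h : 𝔉.F (G ⧸ N)) : 𝔉.F H := by
  refine 𝔉.of_surj (QuotientGroup.lift N f hN) ?_ h
  intro y
  obtain ⟨x, rfl⟩ := hf y
  exact ⟨QuotientGroup.mk x, rfl⟩

theorem of_subdirect {G H₁ H₂ : Type} [Group G] [Finite G] [Group H₁] [Group H₂]
    (f₁ : G →* H₁) (f₂ : G →* H₂) (h₁ : Function.Surjective f₁) (h₂ : Function.Surjective f₂)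
    (F₁ : 𝔉.F H₁) (F₂ : 𝔉.F H₂) (hinj : ∀ g, f₁ g = 1 → f₂ g = 1 → g = 1) : 𝔉.F G := by
  have := 𝔉.sub G f₁.ker f₂.ker (𝔉.quot_ker f₁ h₁ F₁) (𝔉.quot_ker f₂ h₂ F₂)
  refine 𝔉.of_quot_bot _ ?_ this
  rw [eq_bot_iff]
  intro g hg
  exact hinj g hg.1 hg.2

theorem of_frattini {G H : Type} [Group G] [Finite G] [Group H] (f : G →* H)
    (hf : Function.Surjective f) (hH : 𝔉.F H)
    (hmin : ∀ L : Subgroup G, (∀ y : H, ∃ x ∈ L, f x = y) → L = ⊤) : 𝔉.F G := by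
  apply 𝔉.sat
  have hker : f.ker ≤ frattini G := by
    unfold frattini Order.radical
    refine le_iInf₂ fun L hL => ?_
    by_contra hcon
    have hL' : IsCoatom L := hL
    have htop : L ⊔ f.ker = ⊤ := by
      apply hL'.2
      refine lt_of_le_of_ne le_sup_left fun h => hcon ?_
      rw [h]; exact le_sup_right
    apply hL'.1
    apply hmin
    intro y
    obtain ⟨x, rfl⟩ := hf y
    have hx : x ∈ L ⊔ f.ker := by rw [htop]; trivial
    obtain ⟨l, hl, k, hk, rfl⟩ := Subgroup.mem_sup_of_normal_right.1 hx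
    refine ⟨l, hl, ?_⟩
    have hk' : f k = 1 := hk
    simp [hk']
  have h1 := 𝔉.quot_ker f hf hH
  refine 𝔉.of_surj_quot (QuotientGroup.mk' (frattini G)) (QuotientGroup.mk'_surjective _) f.ker
    ?_ h1
  intro x hx
  exact (QuotientGroup.eq_one_iff x).2 (hker hx)

/-- The fibre product of two groups over a third. -/
def fib {X₁ X₂ G : Type} [Group X₁] [Group X₂] [Group G] (π₁ : X₁ →* G) (π₂ : X₂ →* G) :
    Subgroup (X₁ × X₂) where
  carrier := {x | π₁ x.1 = π₂ x.2}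
  mul_mem' := by
    intro a b ha hb
    simp only [Set.mem_ofPred_eq, Prod.fst_mul, Prod.snd_mul, map_mul] at *
    rw [ha, hb]
  one_mem' := by simp
  inv_mem' := by
    intro a ha
    simp only [Set.mem_ofPred_eq, Prod.fst_inv, Prod.snd_inv, map_inv] at *
    rw [ha]

theorem mem_fib {X₁ X₂ G : Type} [Group X₁] [Group X₂] [Group G] (π₁ : X₁ →* G) (π₂ : X₂ →* G)
    (x : X₁ × X₂) : x ∈ fib π₁ π₂ ↔ π₁ x.1 = π₂ x.2 := Iff.rfl

theorem fib_mem {X₁ X₂ G : Type} [Group X₁] [Group X₂] [Group G] (π₁ : X₁ →* G) (π₂ : X₂ →* G)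
    (h₁ : Function.Surjective π₁) (h₂ : Function.Surjective π₂) (F₁ : 𝔉.F X₁) (F₂ : 𝔉.F X₂) :
    𝔉.F (fib π₁ π₂) := by
  have := 𝔉.fin _ F₁
  have := 𝔉.fin _ F₂
  refine 𝔉.of_subdirect ((MonoidHom.fst X₁ X₂).comp (fib π₁ π₂).subtype)
    ((MonoidHom.snd X₁ X₂).comp (fib π₁ π₂).subtype) ?_ ?_ F₁ F₂ ?_
  · intro x
    obtain ⟨y, hy⟩ := h₂ (π₁ x)
    exact ⟨⟨(x, y), hy.symm⟩, rfl⟩
  · intro y
    obtain ⟨x, hx⟩ := h₁ (π₂ y)
    exact ⟨⟨(x, y), hx⟩, rfl⟩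
  · rintro ⟨⟨x, y⟩, h⟩ h1 h2
    apply Subtype.ext
    exact Prod.ext h1 h2

/-- Finite subdirect products. -/
theorem of_subdirect_fin {G ι : Type} [Group G] [Finite G] [Finite ι] (N : ι → Subgroup G)
    (hN : ∀ i, (N i).Normal) (hF : ∀ i, 𝔉.F (G ⧸ N i))
    (hinj : ∀ g, (∀ i, g ∈ N i) → g = 1) : 𝔉.F G := by
  classical
  have := Fintype.ofFinite ι
  have key : ∀ s : Finset ι, ∃ (P : Subgroup G) (_ : P.Normal), 𝔉.F (G ⧸ P) ∧
      ∀ g ∈ P, ∀ i ∈ s, g ∈ N i := by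
    intro s
    induction s using Finset.induction_on with
    | empty =>
      refine ⟨⊤, inferInstance, ?_, by simp⟩
      have : Subsingleton (G ⧸ (⊤ : Subgroup G)) := QuotientGroup.subsingleton_quotient_top
      exact 𝔉.of_subsingleton _
    | insert a s _ ih =>
      obtain ⟨P, hP, h1, h2⟩ := ih
      have := hN a
      refine ⟨P ⊓ N a, inferInstance, 𝔉.sub G P (N a) h1 (hF a), ?_⟩
      intro g hg i hi
      rcases Finset.mem_insert.1 hi with rfl | hi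
      · exact hg.2
      · exact h2 g hg.1 i hi
  obtain ⟨P, hP, h1, h2⟩ := key Finset.univ
  refine 𝔉.of_quot_bot P ?_ h1
  rw [eq_bot_iff]
  intro g hg
  exact hinj g fun i => h2 g hg i (Finset.mem_univ i)

end SatForm

/-- The semidirect product of an additive `G`-module `V` with `G`. -/
@[ext] structure SD (V G : Type) where
  v : V
  g : G

namespace SD

variable {V G : Type} [Group G] [AddCommGroup V] [DistribMulAction G V]

instance : Mul (SD V G) := ⟨fun x y => ⟨x.v + x.g • y.v, x.g * y.g⟩⟩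
instance : One (SD V G) := ⟨⟨0, 1⟩⟩
instance : Inv (SD V G) := ⟨fun x => ⟨-(x.g⁻¹ • x.v), x.g⁻¹⟩⟩

@[simp] theorem mul_v (x y : SD V G) : (x * y).v = x.v + x.g • y.v := rfl
@[simp] theorem mul_g (x y : SD V G) : (x * y).g = x.g * y.g := rfl
@[simp] theorem one_v : (1 : SD V G).v = 0 := rfl
@[simp] theorem one_g : (1 : SD V G).g = 1 := rfl
@[simp] theorem inv_v (x : SD V G) : (x⁻¹).v = -(x.g⁻¹ • x.v) := rfl
@[simp] theorem inv_g (x : SD V G) : (x⁻¹).g = x.g⁻¹ := rfl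

instance : Group (SD V G) :=
  Group.ofLeftAxioms
    (fun x y z => by ext <;> simp [mul_smul, add_assoc, mul_assoc])
    (fun x => by ext <;> simp)
    (fun x => by ext <;> simp)

instance [Finite V] [Finite G] : Finite (SD V G) :=
  Finite.of_injective (fun x : SD V G => (x.v, x.g)) (by
    intro x y h
    simp only [Prod.mk.injEq] at h
    exact SD.ext h.1 h.2)

/-- The projection onto `G`. -/
def proj : SD V G →* G where
  toFun x := x.g
  map_one' := rfl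
  map_mul' _ _ := rfl

@[simp] theorem proj_apply (x : SD V G) : proj x = x.g := rfl

/-- The subgroup of pairs with first entry in `W` and second entry in `M`. -/
def pair (W : AddSubgroup V) (M : Subgroup G) (h : ∀ m ∈ M, ∀ w ∈ W, m • w ∈ W) :
    Subgroup (SD V G) where
  carrier := {x | x.v ∈ W ∧ x.g ∈ M}
  mul_mem' := by
    rintro a b ⟨ha1, ha2⟩ ⟨hb1, hb2⟩
    exact ⟨W.add_mem ha1 (h _ ha2 _ hb1), M.mul_mem ha2 hb2⟩
  one_mem' := ⟨W.zero_mem, M.one_mem⟩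
  inv_mem' := by
    rintro a ⟨ha1, ha2⟩
    exact ⟨W.neg_mem (h _ (M.inv_mem ha2) _ ha1), M.inv_mem ha2⟩

theorem mem_pair {W : AddSubgroup V} {M : Subgroup G} {h : ∀ m ∈ M, ∀ w ∈ W, m • w ∈ W}
    {x : SD V G} : x ∈ pair W M h ↔ x.v ∈ W ∧ x.g ∈ M := Iff.rfl

theorem pow_g (x : SD V G) (n : ℕ) : (x ^ n).g = x.g ^ n := map_pow proj x n

end SD

namespace SatForm

variable (𝔉 : SatForm)

/-- `S` is an invariant subgroup of the module `V` whose semidirect product with `G` is in the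
class. -/
def Good (G : Type) {V : Type} [Group G] [AddCommGroup V] [DistribMulAction G V]
    (S : AddSubgroup V) : Prop :=
  ∃ K : Subgroup (SD V G), (∀ x, x ∈ K ↔ x.v ∈ S) ∧ 𝔉.F K

theorem Good.inv {𝔉 : SatForm} {G V : Type} [Group G] [AddCommGroup V] [DistribMulAction G V]
    {S : AddSubgroup V} (h : 𝔉.Good G S) (g : G) {w : V} (hw : w ∈ S) : g • w ∈ S := by
  obtain ⟨K, hK, -⟩ := h
  have h1 : (⟨0, g⟩ : SD V G) ∈ K := (hK _).2 S.zero_mem
  have h2 : (⟨w, 1⟩ : SD V G) ∈ K := (hK _).2 hw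
  have := (hK _).1 (K.mul_mem h1 h2)
  simpa using this

/-- The Barnes-Kegel argument. -/
theorem barnes_kegel {X G V : Type} [Group X] [Group G] [AddCommGroup V] [DistribMulAction G V]
    (hX : 𝔉.F X) (A : Subgroup X) [hA : A.Normal] (π : X →* G) (hπ : Function.Surjective π)
    (θ : X → V) (hadd : ∀ a ∈ A, ∀ b ∈ A, θ (a * b) = θ a + θ b)
    (hconj : ∀ x, ∀ a ∈ A, θ (x * a * x⁻¹) = π x • θ a)
    (S : AddSubgroup V) (hS : ∀ v, v ∈ S ↔ ∃ a ∈ A, θ a = v) : 𝔉.Good G S := by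
  have hinv : ∀ m ∈ (⊤ : Subgroup G), ∀ w ∈ S, m • w ∈ S := by
    intro m _ w hw
    obtain ⟨a, ha, rfl⟩ := (hS w).1 hw
    obtain ⟨x, rfl⟩ := hπ m
    exact (hS _).2 ⟨_, hA.conj_mem a ha x, hconj x a ha⟩
  refine ⟨SD.pair S ⊤ hinv, fun x => by simp [SD.mem_pair], ?_⟩
  have hY := 𝔉.fib_mem (QuotientGroup.mk' A) (QuotientGroup.mk' A)
    (QuotientGroup.mk'_surjective A) (QuotientGroup.mk'_surjective A) hX hX
  have hmem : ∀ y : fib (QuotientGroup.mk' A) (QuotientGroup.mk' A), y.1.1 * y.1.2⁻¹ ∈ A := by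
    rintro ⟨⟨a, b⟩, h⟩
    have h' : (a : X ⧸ A) = (b : X ⧸ A) := h
    have := QuotientGroup.eq_iff_div_mem.1 h'
    simpa [div_eq_mul_inv] using this
  have hθ1 : θ 1 = 0 := by
    have := hadd 1 A.one_mem 1 A.one_mem
    simpa using this
  let ψ : fib (QuotientGroup.mk' A) (QuotientGroup.mk' A) →* SD.pair S ⊤ hinv :=
    { toFun := fun y => ⟨⟨θ (y.1.1 * y.1.2⁻¹), π y.1.2⟩, (hS _).2 ⟨_, hmem y, rfl⟩, trivial⟩
      map_one' := by
        apply Subtype.ext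
        ext <;> simp [hθ1]
      map_mul' := by
        intro y z
        apply Subtype.ext
        ext
        · have e : y.1.1 * z.1.1 * (y.1.2 * z.1.2)⁻¹ =
              (y.1.1 * y.1.2⁻¹) * (y.1.2 * (z.1.1 * z.1.2⁻¹) * y.1.2⁻¹) := by group
          simp only [Subgroup.coe_mul, Prod.fst_mul, Prod.snd_mul, SD.mul_v]
          rw [e, hadd _ (hmem y) _ (hA.conj_mem _ (hmem z) _), hconj _ _ (hmem z)]
        · simp }
  refine 𝔉.of_surj ψ ?_ hY
  rintro ⟨⟨v, g⟩, hv, -⟩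
  obtain ⟨a, ha, rfl⟩ := (hS v).1 hv
  obtain ⟨x, rfl⟩ := hπ g
  refine ⟨⟨(a * x, x), ?_⟩, ?_⟩
  · rw [mem_fib]
    simp [(QuotientGroup.eq_one_iff a).2 ha]
  · apply Subtype.ext
    ext <;> simp [ψ]

theorem Good.top_iff {G V : Type} [Group G] [AddCommGroup V] [DistribMulAction G V] :
    𝔉.Good G (⊤ : AddSubgroup V) ↔ 𝔉.F (SD V G) := by
  constructor
  · rintro ⟨K, hK, hF⟩
    refine 𝔉.of_surj K.subtype ?_ hF
    intro x
    exact ⟨⟨x, (hK x).2 trivial⟩, rfl⟩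
  · intro h
    exact ⟨⊤, fun x => by simp, 𝔉.of_equiv Subgroup.topEquiv.symm h⟩

/-- Images of invariant subgroups of a good module under equivariant maps are good. -/
theorem Good.map {𝔉 : SatForm} {G V G' V' : Type} [Group G] [AddCommGroup V]
    [DistribMulAction G V] [Group G'] [AddCommGroup V'] [DistribMulAction G' V']
    {S : AddSubgroup V} (h : 𝔉.Good G S) (W : AddSubgroup V) (hW : W ≤ S)
    (hWinv : ∀ g : G, ∀ w ∈ W, g • w ∈ W) (π : G →* G') (hπ : Function.Surjective π)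
    (θ : V → V') (hadd : ∀ a ∈ W, ∀ b ∈ W, θ (a + b) = θ a + θ b)
    (hsmul : ∀ g : G, ∀ a ∈ W, θ (g • a) = π g • θ a)
    (S' : AddSubgroup V') (hS' : ∀ v, v ∈ S' ↔ ∃ a ∈ W, θ a = v) : 𝔉.Good G' S' := by
  obtain ⟨K, hK, hF⟩ := h
  let A : Subgroup K := (SD.pair W ⊥ (fun m _ w hw => hWinv m w hw)).subgroupOf K
  have hAmem : ∀ a : K, a ∈ A ↔ a.1.v ∈ W ∧ a.1.g = 1 := by
    intro a
    simp [A, Subgroup.mem_subgroupOf, SD.mem_pair]
  have hconj : ∀ (x a : K), a.1.g = 1 → (x * a * x⁻¹).1.v = x.1.g • a.1.v := by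
    intro x a ha
    simp [ha]
  have hA : A.Normal := ⟨by
    intro a ha x
    rw [hAmem] at ha ⊢
    refine ⟨?_, by simp [ha.2]⟩
    rw [hconj x a ha.2]
    exact hWinv _ _ ha.1⟩
  refine 𝔉.barnes_kegel hF A (π.comp (SD.proj.comp K.subtype)) ?_ (fun a => θ a.1.v) ?_ ?_ S' ?_
  · intro g'
    obtain ⟨g, rfl⟩ := hπ g'
    exact ⟨⟨⟨0, g⟩, (hK _).2 S.zero_mem⟩, rfl⟩
  · intro a ha b hb
    rw [hAmem] at ha hb
    simp only [Subgroup.coe_mul, SD.mul_v, ha.2, one_smul]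
    exact hadd _ ha.1 _ hb.1
  · intro x a ha
    rw [hAmem] at ha
    rw [hconj x a ha.2, hsmul _ _ ha.1]
    rfl
  · intro v
    rw [hS']
    constructor
    · rintro ⟨a, ha, rfl⟩
      exact ⟨⟨⟨a, 1⟩, (hK _).2 (hW ha)⟩, (hAmem _).2 ⟨ha, rfl⟩, rfl⟩
    · rintro ⟨a, ha, rfl⟩
      exact ⟨a.1.v, ((hAmem a).1 ha).1, rfl⟩

theorem Good.sub {𝔉 : SatForm} {G V : Type} [Group G] [AddCommGroup V]
    [DistribMulAction G V] {S : AddSubgroup V} (h : 𝔉.Good G S) (W : AddSubgroup V) (hW : W ≤ S)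
    (hWinv : ∀ g : G, ∀ w ∈ W, g • w ∈ W) : 𝔉.Good G W :=
  h.map W hW hWinv (MonoidHom.id G) Function.surjective_id id (fun _ _ _ _ => rfl)
    (fun _ _ _ => rfl) W (by simp)

theorem Good.sup {𝔉 : SatForm} {G V : Type} [Group G] [AddCommGroup V]
    [DistribMulAction G V] {S₁ S₂ : AddSubgroup V} (h₁ : 𝔉.Good G S₁) (h₂ : 𝔉.Good G S₂) :
    𝔉.Good G (S₁ ⊔ S₂) := by
  have hinv : ∀ m ∈ (⊤ : Subgroup G), ∀ w ∈ S₁ ⊔ S₂, m • w ∈ S₁ ⊔ S₂ := by
    intro m _ w hw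
    obtain ⟨a, ha, b, hb, rfl⟩ := AddSubgroup.mem_sup.1 hw
    rw [smul_add]
    exact AddSubgroup.add_mem_sup (h₁.inv m ha) (h₂.inv m hb)
  obtain ⟨K₁, hK₁, hF₁⟩ := h₁
  obtain ⟨K₂, hK₂, hF₂⟩ := h₂
  refine ⟨SD.pair (S₁ ⊔ S₂) ⊤ hinv, fun x => by simp [SD.mem_pair], ?_⟩
  have hY := 𝔉.fib_mem (SD.proj.comp K₁.subtype) (SD.proj.comp K₂.subtype)
    (fun g => ⟨⟨⟨0, g⟩, (hK₁ _).2 S₁.zero_mem⟩, rfl⟩)
    (fun g => ⟨⟨⟨0, g⟩, (hK₂ _).2 S₂.zero_mem⟩, rfl⟩) hF₁ hF₂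
  let ψ : fib (SD.proj.comp K₁.subtype) (SD.proj.comp K₂.subtype) →* SD.pair (S₁ ⊔ S₂) ⊤ hinv :=
    { toFun := fun y => ⟨⟨y.1.1.1.v + y.1.2.1.v, y.1.1.1.g⟩,
        AddSubgroup.add_mem_sup ((hK₁ _).1 y.1.1.2) ((hK₂ _).1 y.1.2.2), trivial⟩
      map_one' := by
        apply Subtype.ext
        ext <;> simp
      map_mul' := by
        intro y z
        apply Subtype.ext
        have hy : y.1.1.1.g = y.1.2.1.g := y.2
        ext
        · simp only [Subgroup.coe_mul, Prod.fst_mul, Prod.snd_mul, SD.mul_v, smul_add, hy]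
          abel
        · simp }
  refine 𝔉.of_surj ψ ?_ hY
  rintro ⟨⟨v, g⟩, hv, -⟩
  obtain ⟨a, ha, b, hb, rfl⟩ := AddSubgroup.mem_sup.1 hv
  exact ⟨⟨(⟨⟨a, g⟩, (hK₁ _).2 ha⟩, ⟨⟨b, g⟩, (hK₂ _).2 hb⟩), rfl⟩, rfl⟩

theorem Good.bot {𝔉 : SatForm} {G : Type} (V : Type) [Group G] [AddCommGroup V]
    [DistribMulAction G V] (hG : 𝔉.F G) : 𝔉.Good G (⊥ : AddSubgroup V) := by
  refine 𝔉.barnes_kegel hG ⊥ (MonoidHom.id G) Function.surjective_id (fun _ => 0) (by simp)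
    (by simp) ⊥ ?_
  intro v
  simp [eq_comm]

end SatForm

end Pool.Agent.MP_9bf990_al
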