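import Mathlib.Algebra.Torsor.Defs
import Mathlib.Tactic.LinearCombination
import Mathlib.RingTheory.Nilpotent.Basic
import Mathlib.Algebra.Field.ZMod
import Mathlib.Data.Int.ConditionallyCompleteOrder
import Mathlib.Data.Int.Star
import Mathlib.Algebra.Order.Ring.Star
import Mathlib.Tactic.Algebra.Basic
import Pool.Agent.MP_9bf990_al.Basic

-- ======== part 0: formerly Pool.Agent.MP_9bf990_al.Heis
section MrgPart0

/-!
Function modules, and closure of good submodules under products (Heisenberg group argument).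
-/

set_option autoImplicit false
set_option linter.unusedSectionVars false

namespace Pool.Agent.MP_9bf990_al

/-- Functions on `G` with values in `R`, with the left regular action. -/
def Fn (R G : Type) : Type := G → R

namespace Fn

variable {R G : Type} [CommRing R]

instance : CommRing (Fn R G) := inferInstanceAs (CommRing (G → R))

instance [Finite R] [Finite G] : Finite (Fn R G) := inferInstanceAs (Finite (G → R))

@[ext] theorem ext {f h : Fn R G} (e : ∀ y, f y = h y) : f = h := funext e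

/-- A function seen as an element of `Fn`. -/
def of (f : G → R) : Fn R G := f

@[simp] theorem of_apply (f : G → R) (y : G) : of f y = f y := rfl

@[simp] theorem add_apply (f h : Fn R G) (y : G) : (f + h) y = f y + h y := rfl
@[simp] theorem sub_apply (f h : Fn R G) (y : G) : (f - h) y = f y - h y := rfl
@[simp] theorem mul_apply (f h : Fn R G) (y : G) : (f * h) y = f y * h y := rfl
@[simp] theorem neg_apply (f : Fn R G) (y : G) : (-f) y = -f y := rfl
@[simp] theorem zero_apply (y : G) : (0 : Fn R G) y = 0 := rfl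
@[simp] theorem one_apply (y : G) : (1 : Fn R G) y = 1 := rfl
@[simp] theorem nsmul_apply (n : ℕ) (f : Fn R G) (y : G) : (n • f) y = n * f y := by
  have : (n • f) y = n • f y := rfl
  rw [this, nsmul_eq_mul]

theorem sum_apply {ι : Type} (s : Finset ι) (f : ι → Fn R G) (y : G) :
    (∑ i ∈ s, f i) y = ∑ i ∈ s, f i y := Finset.sum_apply y s f

theorem prod_apply {ι : Type} (s : Finset ι) (f : ι → Fn R G) (y : G) :
    (∏ i ∈ s, f i) y = ∏ i ∈ s, f i y := Finset.prod_apply y s f

variable [Group G]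

instance : SMul G (Fn R G) := ⟨fun g f y => f (g⁻¹ * y)⟩

@[simp] theorem smul_apply (g : G) (f : Fn R G) (y : G) : (g • f) y = f (g⁻¹ * y) := rfl

instance : MulSemiringAction G (Fn R G) where
  one_smul f := by ext; simp
  mul_smul g h f := by ext; simp [mul_assoc]
  smul_zero _ := rfl
  smul_add _ _ _ := rfl
  smul_one _ := rfl
  smul_mul _ _ _ := rfl

end Fn

/-- A Heisenberg group over the ring `V`, extended by `G`. -/
@[ext] structure Heis (V G : Type) where
  a : V
  b : V
  c : V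
  g : G

namespace Heis

variable {V G : Type} [Group G] [CommRing V] [MulSemiringAction G V]

instance : Mul (Heis V G) :=
  ⟨fun x y => ⟨x.a + x.g • y.a, x.b + x.g • y.b, x.c + x.g • y.c + x.a * (x.g • y.b), x.g * y.g⟩⟩
instance : One (Heis V G) := ⟨⟨0, 0, 0, 1⟩⟩
instance : Inv (Heis V G) :=
  ⟨fun x => ⟨-(x.g⁻¹ • x.a), -(x.g⁻¹ • x.b), x.g⁻¹ • (x.a * x.b - x.c), x.g⁻¹⟩⟩

@[simp] theorem mul_a (x y : Heis V G) : (x * y).a = x.a + x.g • y.a := rfl
@[simp] theorem mul_b (x y : Heis V G) : (x * y).b = x.b + x.g • y.b := rfl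
@[simp] theorem mul_c (x y : Heis V G) :
    (x * y).c = x.c + x.g • y.c + x.a * (x.g • y.b) := rfl
@[simp] theorem mul_g (x y : Heis V G) : (x * y).g = x.g * y.g := rfl
@[simp] theorem one_a : (1 : Heis V G).a = 0 := rfl
@[simp] theorem one_b : (1 : Heis V G).b = 0 := rfl
@[simp] theorem one_c : (1 : Heis V G).c = 0 := rfl
@[simp] theorem one_g : (1 : Heis V G).g = 1 := rfl
@[simp] theorem inv_a (x : Heis V G) : (x⁻¹).a = -(x.g⁻¹ • x.a) := rfl
@[simp] theorem inv_b (x : Heis V G) : (x⁻¹).b = -(x.g⁻¹ • x.b) := rfl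
@[simp] theorem inv_c (x : Heis V G) : (x⁻¹).c = x.g⁻¹ • (x.a * x.b - x.c) := rfl
@[simp] theorem inv_g (x : Heis V G) : (x⁻¹).g = x.g⁻¹ := rfl

instance : Group (Heis V G) :=
  Group.ofLeftAxioms
    (fun x y z => by
      ext
      · simp [mul_smul, add_assoc]
      · simp [mul_smul, add_assoc]
      · simp only [mul_c, mul_a, mul_b, mul_g, mul_smul, smul_add, smul_mul']
        ring
      · simp [mul_assoc])
    (fun x => by ext <;> simp)
    (fun x => by
      ext
      · simp
      · simp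
      · simp only [mul_c, inv_c, inv_g, inv_a, one_c, smul_sub, smul_mul']
        ring
      · simp)

instance [Finite V] [Finite G] : Finite (Heis V G) :=
  Finite.of_injective (fun x : Heis V G => (x.a, x.b, x.c, x.g)) (by
    intro x y h
    simp only [Prod.mk.injEq] at h
    exact Heis.ext h.1 h.2.1 h.2.2.1 h.2.2.2)

end Heis

namespace SatForm

theorem Good.mul {𝔉 : SatForm} {G V : Type} [Group G] [Finite G] [CommRing V] [Finite V]
    [MulSemiringAction G V] {S : AddSubgroup V} (h : 𝔉.Good G S) :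
    𝔉.Good G (AddSubgroup.closure {c | ∃ a ∈ S, ∃ b ∈ S, a * b = c}) := by
  set P := AddSubgroup.closure {c | ∃ a ∈ S, ∃ b ∈ S, a * b = c} with hP
  have hSinv : ∀ g : G, ∀ w ∈ S, g • w ∈ S := fun g w hw => h.inv g hw
  have hPmul : ∀ a ∈ S, ∀ b ∈ S, a * b ∈ P := fun a ha b hb =>
    AddSubgroup.subset_closure ⟨a, ha, b, hb, rfl⟩
  have hPinv : ∀ g : G, ∀ w ∈ P, g • w ∈ P := by
    intro g w hw
    induction hw using AddSubgroup.closure_induction with
    | mem x hx =>
      obtain ⟨a, ha, b, hb, rfl⟩ := hx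
      rw [smul_mul']
      exact hPmul _ (hSinv g a ha) _ (hSinv g b hb)
    | zero => simp
    | add x y _ _ hx hy => rw [smul_add]; exact P.add_mem hx hy
    | neg x _ hx => rw [smul_neg]; exact P.neg_mem hx
  obtain ⟨K, hK, hF⟩ := h
  let Y : Subgroup (Heis V G) :=
    { carrier := {x | x.a ∈ S ∧ x.b ∈ S ∧ x.c ∈ P}
      mul_mem' := by
        rintro x y ⟨h1, h2, h3⟩ ⟨h4, h5, h6⟩
        exact ⟨S.add_mem h1 (hSinv _ _ h4), S.add_mem h2 (hSinv _ _ h5),
          P.add_mem (P.add_mem h3 (hPinv _ _ h6)) (hPmul _ h1 _ (hSinv _ _ h5))⟩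
      one_mem' := ⟨S.zero_mem, S.zero_mem, P.zero_mem⟩
      inv_mem' := by
        rintro x ⟨h1, h2, h3⟩
        exact ⟨S.neg_mem (hSinv _ _ h1), S.neg_mem (hSinv _ _ h2),
          hPinv _ _ (P.sub_mem (hPmul _ h1 _ h2) h3)⟩ }
  have hsurjK : Function.Surjective (SD.proj.comp K.subtype) :=
    fun g => ⟨⟨⟨0, g⟩, (hK _).2 S.zero_mem⟩, rfl⟩
  have hY2 := 𝔉.fib_mem (SD.proj.comp K.subtype) (SD.proj.comp K.subtype) hsurjK hsurjK hF hF
  let ψ : Y →* fib (SD.proj.comp K.subtype) (SD.proj.comp K.subtype) :=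
    { toFun := fun y => ⟨(⟨⟨y.1.a, y.1.g⟩, (hK _).2 y.2.1⟩, ⟨⟨y.1.b, y.1.g⟩, (hK _).2 y.2.2.1⟩), rfl⟩
      map_one' := rfl
      map_mul' := fun _ _ => rfl }
  have hψ : Function.Surjective ψ := by
    rintro ⟨⟨⟨⟨a, g⟩, ha⟩, ⟨⟨b, g'⟩, hb⟩⟩, hg⟩
    have hg' : g = g' := hg
    subst hg'
    exact ⟨⟨⟨a, b, 0, g⟩, (hK _).1 ha, (hK _).1 hb, P.zero_mem⟩, rfl⟩
  have hY : 𝔉.F Y := by
    refine 𝔉.of_frattini ψ hψ hY2 ?_
    intro L hL
    have hZ : ∀ c (hc : c ∈ P), (⟨⟨0, 0, c, 1⟩, S.zero_mem, S.zero_mem, hc⟩ : Y) ∈ L := by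
      intro c hc
      induction hc using AddSubgroup.closure_induction with
      | mem x hx =>
        obtain ⟨a, ha, b, hb, rfl⟩ := hx
        obtain ⟨l₁, hl₁, e₁⟩ := hL (ψ ⟨⟨a, 0, 0, 1⟩, ha, S.zero_mem, P.zero_mem⟩)
        obtain ⟨l₂, hl₂, e₂⟩ := hL (ψ ⟨⟨0, b, 0, 1⟩, S.zero_mem, hb, P.zero_mem⟩)
        have a1 : l₁.1.a = a := congrArg (fun z => z.1.1.1.v) e₁
        have b1 : l₁.1.b = 0 := congrArg (fun z => z.1.2.1.v) e₁
        have g1 : l₁.1.g = 1 := congrArg (fun z => z.1.1.1.g) e₁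
        have a2 : l₂.1.a = 0 := congrArg (fun z => z.1.1.1.v) e₂
        have b2 : l₂.1.b = b := congrArg (fun z => z.1.2.1.v) e₂
        have g2 : l₂.1.g = 1 := congrArg (fun z => z.1.1.1.g) e₂
        have hm := L.mul_mem (L.mul_mem (L.mul_mem hl₁ hl₂) (L.inv_mem hl₁)) (L.inv_mem hl₂)
        convert hm using 1
        apply Subtype.ext
        ext
        · simp [a1, a2, g1, g2]
        · simp [b1, b2, g1, g2]
        · simp [a1, a2, b1, b2, g1, g2]
          ring
        · simp [g1, g2]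
      | zero => exact L.one_mem
      | add x y hx' hy' hx hy =>
        convert L.mul_mem hx hy using 1
        apply Subtype.ext
        ext <;> simp
      | neg x hx' hx =>
        convert L.inv_mem hx using 1
        apply Subtype.ext
        ext <;> simp
    rw [eq_top_iff]
    intro y _
    obtain ⟨l, hl, e⟩ := hL (ψ y)
    have a1 : l.1.a = y.1.a := congrArg (fun z => z.1.1.1.v) e
    have b1 : l.1.b = y.1.b := congrArg (fun z => z.1.2.1.v) e
    have g1 : l.1.g = y.1.g := congrArg (fun z => z.1.1.1.g) e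
    have hm := L.mul_mem (hZ (y.1.c - l.1.c) (P.sub_mem y.2.2.2 l.2.2.2)) hl
    convert hm using 1
    apply Subtype.ext
    ext
    · simp [a1]
    · simp [b1]
    · simp
    · simp [g1]
  let π : Y →* G :=
    { toFun := fun y => y.1.g
      map_one' := rfl
      map_mul' := fun _ _ => rfl }
  have hmemker : ∀ y : Y, y ∈ ψ.ker ↔ y.1.a = 0 ∧ y.1.b = 0 ∧ y.1.g = 1 := by
    intro y
    rw [MonoidHom.mem_ker]
    constructor
    · intro e
      exact ⟨congrArg (fun z => z.1.1.1.v) e, congrArg (fun z => z.1.2.1.v) e,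
        congrArg (fun z => z.1.1.1.g) e⟩
    · rintro ⟨h1, h2, h3⟩
      apply Subtype.ext
      apply Prod.ext
      · apply Subtype.ext
        exact SD.ext h1 h3
      · apply Subtype.ext
        exact SD.ext h2 h3
  refine 𝔉.barnes_kegel hY ψ.ker π ?_ (fun y => y.1.c) ?_ ?_ P ?_
  · intro g
    exact ⟨⟨⟨0, 0, 0, g⟩, S.zero_mem, S.zero_mem, P.zero_mem⟩, rfl⟩
  · intro a ha b hb
    rw [hmemker] at ha hb
    simp [ha.1, ha.2.2]
  · intro x a ha
    rw [hmemker] at ha
    simp only [Subgroup.coe_mul, InvMemClass.coe_inv, Heis.mul_c, Heis.mul_a, Heis.mul_g,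
      Heis.inv_c, Heis.inv_b, ha.1, ha.2.1, ha.2.2, mul_one, smul_inv_smul, smul_zero, smul_neg,
      π, MonoidHom.coe_mk, OneHom.coe_mk]
    ring
  · intro v
    constructor
    · intro hv
      exact ⟨⟨⟨0, 0, v, 1⟩, S.zero_mem, S.zero_mem, hv⟩, (hmemker _).2 ⟨rfl, rfl, rfl⟩, rfl⟩
    · rintro ⟨a, -, rfl⟩
      exact a.2.2.2

theorem exists_max_good (𝔉 : SatForm) {G : Type} (V : Type) [Group G] [AddCommGroup V] [Finite V]
    [DistribMulAction G V] (hG : 𝔉.F G) :
    ∃ S : AddSubgroup V, 𝔉.Good G S ∧ ∀ T : AddSubgroup V, 𝔉.Good G T → T ≤ S := by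
  obtain ⟨S, hS, hmax⟩ := Set.Finite.exists_maximal (Set.toFinite {S : AddSubgroup V | 𝔉.Good G S})
    ⟨⊥, Good.bot V hG⟩
  refine ⟨S, hS, fun T hT => ?_⟩
  have := hmax (Good.sup hS hT) le_sup_left
  exact le_sup_right.trans this

end SatForm

end Pool.Agent.MP_9bf990_al

end MrgPart0

-- ======== part 1: formerly Pool.Agent.MP_9bf990_al.Ext
section MrgPart1

/-!
An explicit Frattini extension of a finite group inside a wreath product, and its consequences
for the largest good submodule of the regular module.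
-/

set_option autoImplicit false
set_option linter.unusedSectionVars false

namespace Pool.Agent.MP_9bf990_al

section zmod

variable (p n : ℕ) [hp : Fact p.Prime]

instance neZero_pow : NeZero (p ^ n) := ⟨pow_ne_zero _ hp.out.ne_zero⟩

/-- Reduction modulo `p`. -/
def red : ZMod (p ^ (n + 1)) →+* ZMod p :=
  ZMod.castHom (dvd_pow_self p (Nat.succ_ne_zero n)) (ZMod p)

theorem red_eq_zero {c : ZMod (p ^ (n + 1))} (h : red p n c = 0) : (p : ZMod (p ^ (n + 1))) ∣ c := by
  rw [← ZMod.natCast_zmod_val c, map_natCast, ZMod.natCast_eq_zero_iff] at h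
  obtain ⟨d, hd⟩ := h
  refine ⟨d, ?_⟩
  rw [← ZMod.natCast_zmod_val c, hd, Nat.cast_mul]

theorem pow_self_zero : ((p : ZMod (p ^ (n + 1)))) ^ (n + 1) = 0 := by
  rw [← Nat.cast_pow, ZMod.natCast_eq_zero_iff]

theorem isUnit_of_red {c : ZMod (p ^ (n + 1))} (h : red p n c = 1) : IsUnit c := by
  obtain ⟨d, hd⟩ := red_eq_zero p n (c := c - 1) (by rw [map_sub, h, map_one, sub_self])
  have : c = p * d + 1 := by rw [← hd]; ring
  rw [this]
  apply IsNilpotent.isUnit_add_one
  exact ⟨n + 1, by rw [mul_pow, pow_self_zero, zero_mul]⟩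

/-- The embedding of `ZMod p` onto the `p`-torsion. -/
def emb (z : ZMod p) : ZMod (p ^ (n + 1)) := (p : ZMod (p ^ (n + 1))) ^ n * (z.val : ℕ)

theorem emb_natCast (m : ℕ) : emb p n (m : ZMod p) = (p : ZMod (p ^ (n + 1))) ^ n * m := by
  unfold emb
  rw [ZMod.val_natCast]
  conv_rhs => rw [← Nat.mod_add_div m p]
  have := pow_self_zero p n
  push_cast
  linear_combination (-(m / p : ℕ) : ZMod (p ^ (n + 1))) * this

theorem emb_add (z w : ZMod p) : emb p n (z + w) = emb p n z + emb p n w := by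
  rw [← ZMod.natCast_zmod_val z, ← ZMod.natCast_zmod_val w, ← Nat.cast_add, emb_natCast,
    emb_natCast, emb_natCast]
  push_cast
  ring

theorem emb_zero : emb p n 0 = 0 := by simp [emb]

theorem emb_inj : Function.Injective (emb p n) := by
  have h0 : ∀ z, emb p n z = 0 → z = 0 := by
    intro z hz
    unfold emb at hz
    rw [← Nat.cast_pow, ← Nat.cast_mul, ZMod.natCast_eq_zero_iff, pow_succ] at hz
    have := Nat.dvd_of_mul_dvd_mul_left (pow_pos hp.out.pos n) hz
    rw [← ZMod.natCast_zmod_val z, ZMod.natCast_eq_zero_iff]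
    exact this
  intro z w h
  have : emb p n (z - w) = 0 := by
    have e := emb_add p n (z - w) w
    rw [sub_add_cancel, h] at e
    simpa using e
  exact sub_eq_zero.1 (h0 _ this)

theorem emb_range {c : ZMod (p ^ (n + 1))} (h : (p : ZMod (p ^ (n + 1))) * c = 0) :
    ∃ z, emb p n z = c := by
  rw [← ZMod.natCast_zmod_val c, ← Nat.cast_mul, ZMod.natCast_eq_zero_iff] at h
  have h' : p * p ^ n ∣ p * c.val := by rw [← pow_succ']; exact h
  obtain ⟨d, hd⟩ := Nat.dvd_of_mul_dvd_mul_left hp.out.pos h'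
  refine ⟨d, ?_⟩
  rw [emb_natCast, ← ZMod.natCast_zmod_val c, hd]
  push_cast
  rfl

end zmod

theorem exists_level {G : Type} [Group G] (p : ℕ) (x : G) (hx : orderOf x = p) :
    ∃ t : G → ZMod p, ∀ y, t (y * x) = t y + 1 := by
  have h : ∀ y : G, ∃ j : ℤ,
      x ^ j = ((QuotientGroup.mk y : G ⧸ Subgroup.zpowers x).out)⁻¹ * y := by
    intro y
    have : ((QuotientGroup.mk y : G ⧸ Subgroup.zpowers x).out)⁻¹ * y ∈ Subgroup.zpowers x := by
      rw [← QuotientGroup.eq]
      simp
    exact Subgroup.mem_zpowers_iff.1 this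
  choose j hj using h
  refine ⟨fun y => (j y : ZMod p), fun y => ?_⟩
  have e : (QuotientGroup.mk (y * x) : G ⧸ Subgroup.zpowers x) = QuotientGroup.mk y := by
    rw [eq_comm, QuotientGroup.eq]
    simp
  have h1 := hj (y * x)
  rw [e, ← mul_assoc, ← hj y, ← zpow_add_one, zpow_eq_zpow_iff_modEq, hx] at h1
  have := (ZMod.intCast_eq_intCast_iff _ _ _).2 h1
  simpa using this

namespace SatForm

variable (𝔉 : SatForm)

theorem exists_ext {G : Type} [Group G] (hG : 𝔉.F G) (p n : ℕ) [Fact p.Prime] (x : G)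
    (t : G → ZMod p) (ht : ∀ y, t (y * x) = t y + 1) :
    ∃ E : Subgroup (SD (Fn (ZMod (p ^ (n + 1))) G) G), 𝔉.F E ∧ (∀ g, ∃ e ∈ E, e.g = g) ∧
      (∀ e ∈ E, ∀ y, e.v (y * x) = e.v y) ∧
      (∀ e ∈ E, ∀ y, red p n (e.v y) = t y - t (e.g⁻¹ * y)) := by
  have := 𝔉.fin G hG
  let E₀ : Subgroup (SD (Fn (ZMod (p ^ (n + 1))) G) G) :=
    { carrier := {e | (∀ y, e.v (y * x) = e.v y) ∧ ∀ y, red p n (e.v y) = t y - t (e.g⁻¹ * y)}
      mul_mem' := by
        rintro a b ⟨h1, h2⟩ ⟨h3, h4⟩
        refine ⟨fun y => ?_, fun y => ?_⟩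
        · simp [h1, ← mul_assoc, h3]
        · simp [h2, h4, mul_assoc]
      one_mem' := ⟨fun _ => rfl, fun y => by simp⟩
      inv_mem' := by
        rintro a ⟨h1, h2⟩
        refine ⟨fun y => ?_, fun y => ?_⟩
        · simp [← mul_assoc, h1]
        · simp [h2] }
  have hE₀ : ∀ g, ∃ e ∈ E₀, e.g = g := by
    intro g
    refine ⟨⟨fun y => ((t y - t (g⁻¹ * y)).val : ℕ), g⟩, ⟨fun y => ?_, fun y => ?_⟩, rfl⟩
    · simp only [← mul_assoc, ht]
      congr 2
      ring
    · simp
  obtain ⟨E, ⟨hE1, hE2⟩, hmin⟩ := Set.Finite.exists_minimal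
    (Set.toFinite {E : Subgroup (SD (Fn (ZMod (p ^ (n + 1))) G) G) |
      E ≤ E₀ ∧ ∀ g, ∃ e ∈ E, e.g = g}) ⟨E₀, le_rfl, hE₀⟩
  refine ⟨E, ?_, hE2, fun e he => (hE1 he).1, fun e he => (hE1 he).2⟩
  refine 𝔉.of_frattini (SD.proj.comp E.subtype) ?_ hG ?_
  · intro g
    obtain ⟨e, he, rfl⟩ := hE2 g
    exact ⟨⟨e, he⟩, rfl⟩
  · intro L hL
    have hle : L.map E.subtype ≤ E := Subgroup.map_subtype_le L
    have := hmin (y := L.map E.subtype) ⟨hle.trans hE1, fun g => by
      obtain ⟨l, hl, rfl⟩ := hL g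
      exact ⟨l.1, ⟨l, hl, rfl⟩, rfl⟩⟩ hle
    rw [eq_top_iff]
    intro e _
    obtain ⟨l, hl, e'⟩ := this e.2
    have : l = e := Subtype.ext e'
    exact this ▸ hl

/-- The kernel of the extension, as a submodule. -/
def kerMod {V G : Type} [Group G] [AddCommGroup V] [DistribMulAction G V]
    (E : Subgroup (SD V G)) : AddSubgroup V where
  carrier := {v | (⟨v, 1⟩ : SD V G) ∈ E}
  add_mem' := by
    intro a b ha hb
    have := E.mul_mem ha hb
    show (⟨a + b, 1⟩ : SD V G) ∈ E
    convert this using 1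
    ext <;> simp
  zero_mem' := E.one_mem
  neg_mem' := by
    intro a ha
    have := E.inv_mem ha
    show (⟨-a, 1⟩ : SD V G) ∈ E
    convert this using 1
    ext <;> simp

theorem mem_kerMod {V G : Type} [Group G] [AddCommGroup V] [DistribMulAction G V]
    {E : Subgroup (SD V G)} {v : V} : v ∈ kerMod E ↔ (⟨v, 1⟩ : SD V G) ∈ E := Iff.rfl

theorem mem_kerMod_of {V G : Type} [Group G] [AddCommGroup V] [DistribMulAction G V]
    {E : Subgroup (SD V G)} {e : SD V G} (he : e ∈ E) (h : e.g = 1) : e.v ∈ kerMod E := by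
  rw [mem_kerMod]
  convert he using 1
  ext
  · rfl
  · exact h.symm

theorem good_kerMod {V G : Type} [Group G] [AddCommGroup V] [DistribMulAction G V]
    (E : Subgroup (SD V G)) (hE : 𝔉.F E) (hs : ∀ g, ∃ e ∈ E, e.g = g) :
    𝔉.Good G (kerMod E) := by
  refine 𝔉.barnes_kegel hE (SD.proj.comp E.subtype).ker (SD.proj.comp E.subtype) ?_
    (fun e => e.1.v) ?_ ?_ _ ?_
  · intro g
    obtain ⟨e, he, rfl⟩ := hs g
    exact ⟨⟨e, he⟩, rfl⟩
  · intro a ha b _
    have : a.1.g = 1 := ha
    simp [this]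
  · intro x a ha
    have : a.1.g = 1 := ha
    simp [this]
  · intro v
    constructor
    · intro hv
      exact ⟨⟨⟨v, 1⟩, hv⟩, rfl, rfl⟩
    · rintro ⟨a, ha, rfl⟩
      exact mem_kerMod_of a.2 ha

/-- The `p`-torsion of a good submodule with values mod `p ^ (n+1)` comes from the largest good
submodule with values mod `p`. -/
theorem torsion_from {G : Type} [Group G] (p n : ℕ) [Fact p.Prime]
    (S : AddSubgroup (Fn (ZMod p) G)) (hmax : ∀ T, 𝔉.Good G T → T ≤ S)
    (A : AddSubgroup (Fn (ZMod (p ^ (n + 1))) G)) (hA : 𝔉.Good G A)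
    (a : Fn (ZMod (p ^ (n + 1))) G) (ha : a ∈ A) (hpa : p • a = 0) :
    ∃ f ∈ S, ∀ y, emb p n (f y) = a y := by
  let B : AddSubgroup (Fn (ZMod (p ^ (n + 1))) G) :=
    { carrier := {b | b ∈ A ∧ p • b = 0}
      add_mem' := by
        rintro a b ⟨h1, h2⟩ ⟨h3, h4⟩
        exact ⟨A.add_mem h1 h3, by rw [nsmul_add, h2, h4, add_zero]⟩
      zero_mem' := ⟨A.zero_mem, nsmul_zero _⟩
      neg_mem' := by
        rintro a ⟨h1, h2⟩
        exact ⟨A.neg_mem h1, by rw [neg_nsmul, h2, neg_zero]⟩ }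
  let θ : Fn (ZMod (p ^ (n + 1))) G → Fn (ZMod p) G :=
    fun b y => Function.invFun (emb p n) (b y)
  have hθ : ∀ b ∈ B, ∀ y, emb p n (θ b y) = b y := by
    intro b hb y
    apply Function.invFun_eq
    apply emb_range
    have := congrFun hb.2 y
    simpa using this
  let T : AddSubgroup (Fn (ZMod p) G) :=
    { carrier := {f | ∃ b ∈ B, θ b = f}
      add_mem' := by
        rintro _ _ ⟨a, ha, rfl⟩ ⟨b, hb, rfl⟩
        refine ⟨a + b, B.add_mem ha hb, ?_⟩
        ext y
        apply emb_inj p n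
        rw [hθ _ (B.add_mem ha hb), Fn.add_apply, Fn.add_apply, emb_add, hθ _ ha, hθ _ hb]
      zero_mem' := by
        refine ⟨0, B.zero_mem, ?_⟩
        ext y
        apply emb_inj p n
        rw [hθ _ B.zero_mem, Fn.zero_apply, Fn.zero_apply, emb_zero]
      neg_mem' := by
        rintro _ ⟨a, ha, rfl⟩
        refine ⟨-a, B.neg_mem ha, ?_⟩
        ext y
        apply emb_inj p n
        have e := emb_add p n (-(θ a y)) (θ a y)
        rw [neg_add_cancel, emb_zero, hθ _ ha] at e
        rw [hθ _ (B.neg_mem ha), Fn.neg_apply, Fn.neg_apply]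
        linear_combination e }
  have hT : 𝔉.Good G T := by
    refine hA.map B (fun b hb => hb.1) ?_ (MonoidHom.id G) Function.surjective_id θ ?_ ?_ T
      (fun v => Iff.rfl)
    · intro g w hw
      exact ⟨hA.inv g hw.1, by rw [← smul_comm, hw.2, smul_zero]⟩
    · intro a ha b hb
      ext y
      apply emb_inj p n
      rw [hθ _ (B.add_mem ha hb), Fn.add_apply, Fn.add_apply, emb_add, hθ _ ha, hθ _ hb]
    · intro g a _
      rfl
  exact ⟨θ a, hmax T hT ⟨a, ⟨ha, hpa⟩, rfl⟩, hθ a ⟨ha, hpa⟩⟩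

end SatForm

theorem pow_v_one {R G : Type} [CommRing R] [Group G] (e : SD (Fn R G) G)
    (h : ∀ y, e.v (y * e.g) = e.v y) (j : ℕ) : (e ^ j).v 1 = j * e.v 1 := by
  have h1 : ∀ j : ℕ, e.v ((e.g ^ j)⁻¹) = e.v 1 := by
    intro j
    induction j with
    | zero => simp
    | succ j ih =>
      rw [← h, ← ih, pow_succ', mul_inv_rev]
      simp
  induction j with
  | zero => simp
  | succ j ih =>
    rw [pow_succ, SD.mul_v, Fn.add_apply, ih, Fn.smul_apply, SD.pow_g, mul_one, h1]
    push_cast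
    ring

end Pool.Agent.MP_9bf990_al

end MrgPart1

-- ======== part 2: formerly Pool.Agent.MP_9bf990_al.Local
section MrgPart2

/-!
The part of the Gaschuetz-Lubeseder-Schmid theorem that we need: if `G` lies in a saturated
formation and `p` divides its order, then the regular wreath product of `C_p` with `G / K₀` lies in
the formation, for a normal subgroup `K₀` that is an extension of a normal `p'`-subgroup by a
`p`-group.
-/

set_option autoImplicit false
set_option linter.unusedSectionVars false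

namespace Pool.Agent.MP_9bf990_al

namespace SatForm

variable (𝔉 : SatForm)

theorem max_ne_bot {G : Type} [Group G] (hG : 𝔉.F G) (p : ℕ) [hp : Fact p.Prime] (x : G)
    (hx : orderOf x = p) (S : AddSubgroup (Fn (ZMod p) G)) (hmax : ∀ T, 𝔉.Good G T → T ≤ S) :
    ∃ f ∈ S, f 1 ≠ 0 := by
  obtain ⟨t, ht⟩ := exists_level p x hx
  obtain ⟨E, hE, hs, hr, hred⟩ := 𝔉.exists_ext hG p 1 x t ht
  obtain ⟨e, he, hex⟩ := hs x
  have hg : (e ^ p).g = 1 := by rw [SD.pow_g, hex, ← hx, pow_orderOf_eq_one]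
  have ha : (e ^ p).v ∈ kerMod E := mem_kerMod_of (E.pow_mem he p) hg
  have hpa : p • (e ^ p).v = 0 := by
    ext y
    have h0 := hred _ (E.pow_mem he p) y
    rw [hg, inv_one, one_mul, sub_self] at h0
    obtain ⟨d, hd⟩ := red_eq_zero p 1 h0
    have := pow_self_zero p 1
    rw [Fn.nsmul_apply, hd, Fn.zero_apply]
    linear_combination d * this
  obtain ⟨f, hf, hfe⟩ := 𝔉.torsion_from p 1 S hmax _ (𝔉.good_kerMod E hE hs) _ ha hpa
  refine ⟨f, hf, fun h0 => ?_⟩
  have h1 := hfe 1
  rw [h0, emb_zero, pow_v_one e (by rw [hex]; exact hr e he)] at h1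
  have hu : IsUnit (e.v 1) := by
    apply isUnit_of_red
    rw [hred e he, hex, mul_one]
    have := ht x⁻¹
    rw [inv_mul_cancel] at this
    rw [this]; ring
  have h2 : ((p : ℕ) : ZMod (p ^ (1 + 1))) = 0 := (hu.mul_left_eq_zero).1 h1.symm
  rw [ZMod.natCast_eq_zero_iff] at h2
  have h3 := Nat.le_of_dvd hp.out.pos h2
  have h4 := hp.out.one_lt
  have : p ^ (1 + 1) = p * p := by ring
  nlinarith

theorem coprime_fix {G : Type} [Group G] (p n : ℕ) [hp : Fact p.Prime]
    (S : AddSubgroup (Fn (ZMod p) G)) (hmax : ∀ T, 𝔉.Good G T → T ≤ S)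
    (A : AddSubgroup (Fn (ZMod (p ^ (n + 1))) G)) (hA : 𝔉.Good G A)
    (k : G) (hk : ∀ f ∈ S, k • f = f) (hco : (orderOf k).Coprime p) :
    ∀ a ∈ A, k • a = a := by
  have key : ∀ i : ℕ, ∀ a ∈ A, p ^ i • a = 0 → k • a = a := by
    intro i
    induction i with
    | zero =>
      intro a _ h
      rw [pow_zero, one_nsmul] at h
      rw [h, smul_zero]
    | succ i ih =>
      intro a ha h
      have h1 : k • (p ^ i • a) = p ^ i • a := by
        obtain ⟨f, hf, hfe⟩ := 𝔉.torsion_from p n S hmax A hA (p ^ i • a) (A.nsmul_mem ha _)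
          (by rw [← mul_nsmul', ← pow_succ', h])
        ext y
        have h0 : f (k⁻¹ * y) = f y := congrFun (hk f hf) y
        rw [Fn.smul_apply, ← hfe, ← hfe, h0]
      set b := k • a - a with hb
      have hbA : b ∈ A := A.sub_mem (hA.inv k ha) ha
      have h2 : p ^ i • b = 0 := by
        rw [hb, nsmul_sub, smul_comm, h1, sub_self]
      have h3 := ih b hbA h2
      have h4 : ∀ j : ℕ, k ^ j • a = a + j • b := by
        intro j
        induction j with
        | zero => simp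
        | succ j ihj =>
          rw [pow_succ' k, mul_smul, ihj, smul_add, ← smul_comm, h3, succ_nsmul]
          have : k • a = a + b := by rw [hb]; abel
          rw [this]; abel
      have h5 : orderOf k • b = 0 := by
        have := h4 (orderOf k)
        rw [pow_orderOf_eq_one, one_smul] at this
        simpa using this
      have h6 : addOrderOf b ∣ 1 := by
        have hc : (orderOf k).Coprime (p ^ i) := hco.pow_right i
        have := Nat.dvd_gcd (addOrderOf_dvd_of_nsmul_eq_zero h5)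
          (addOrderOf_dvd_of_nsmul_eq_zero h2)
        rwa [hc] at this
      have h7 : b = 0 := by
        rw [Nat.dvd_one, AddMonoid.addOrderOf_eq_one_iff] at h6
        exact h6
      exact sub_eq_zero.1 h7
  intro a ha
  apply key (n + 1) a ha
  ext y
  rw [Fn.nsmul_apply, Nat.cast_pow, pow_self_zero, zero_mul, Fn.zero_apply]

theorem not_mem_closure {G : Type} [Group G] (hG : 𝔉.F G) (p : ℕ) [hp : Fact p.Prime]
    (S : AddSubgroup (Fn (ZMod p) G)) (hmax : ∀ T, 𝔉.Good G T → T ≤ S) (Γ : Set G)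
    (hΓ : ∀ k ∈ Γ, (∀ f ∈ S, k • f = f) ∧ (orderOf k).Coprime p) (x : G)
    (hx : orderOf x = p) : x ∉ Subgroup.closure Γ := by
  classical
  intro hxK
  have := 𝔉.fin G hG
  set K := Subgroup.closure Γ with hK
  have := Fintype.ofFinite K
  set n := Fintype.card K with hn
  obtain ⟨t, ht⟩ := exists_level p x hx
  obtain ⟨E, hE, hs, hr, hred⟩ := 𝔉.exists_ext hG p n x t ht
  have hA := 𝔉.good_kerMod E hE hs
  have hfix : ∀ k ∈ K, ∀ a ∈ kerMod E, k • a = a := by
    intro k hk
    induction hk using Subgroup.closure_induction with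
    | mem k hk => exact 𝔉.coprime_fix p n S hmax _ hA k (hΓ k hk).1 (hΓ k hk).2
    | one => intro a _; exact one_smul _ _
    | mul k l _ _ hk hl => intro a ha; rw [mul_smul, hl a ha, hk a ha]
    | inv k _ hk => intro a ha; rw [inv_smul_eq_iff, hk a ha]
  let φ : SD (Fn (ZMod (p ^ (n + 1))) G) G → ZMod (p ^ (n + 1)) := fun e => ∑ y : K, e.v y
  have hφmul : ∀ e e', e.g ∈ K → φ (e * e') = φ e + φ e' := by
    intro e e' he
    simp only [φ, SD.mul_v, Fn.add_apply, Fn.smul_apply, Finset.sum_add_distrib]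
    congr 1
    exact Fintype.sum_equiv (Equiv.mulLeft (⟨e.g, he⟩⁻¹ : K)) _ _ (fun y => rfl)
  have hφone : φ 1 = 0 := by simp [φ]
  have hφpow : ∀ e, e.g ∈ K → ∀ j : ℕ, φ (e ^ j) = j * φ e := by
    intro e he j
    induction j with
    | zero => simp [hφone]
    | succ j ih =>
      rw [pow_succ' e, hφmul _ _ he, ih]
      push_cast
      ring
  have hφker : ∀ e ∈ E, e.g = 1 → φ e = n * e.v 1 := by
    intro e he hg
    have : ∀ y : K, e.v y = e.v 1 := by
      intro y
      have h1 := congrFun (hfix _ (K.inv_mem y.2) _ (mem_kerMod_of he hg)) 1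
      simpa using h1
    simp [φ, this, hn]
  have hφker' : ∀ e ∈ E, e.g = 1 → (n * p : ZMod (p ^ (n + 1))) ∣ φ e := by
    intro e he hg
    rw [hφker e he hg]
    apply mul_dvd_mul_left
    apply red_eq_zero
    rw [hred e he, hg, inv_one, one_mul, sub_self]
  have hdiv : ∀ k ∈ K, ∀ e ∈ E, e.g = k → (n * p : ZMod (p ^ (n + 1))) ∣ φ e := by
    intro k hk
    induction hk using Subgroup.closure_induction with
    | mem k hk =>
      intro e he hg
      have hkK : e.g ∈ K := hg ▸ Subgroup.subset_closure hk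
      have h1 := hφker' (e ^ orderOf k) (E.pow_mem he _)
        (by rw [SD.pow_g, hg, pow_orderOf_eq_one])
      rw [hφpow e hkK] at h1
      have hu : IsUnit ((orderOf k : ℕ) : ZMod (p ^ (n + 1))) := by
        rw [ZMod.isUnit_iff_coprime]
        exact (hΓ k hk).2.pow_right _
      exact (hu.dvd_mul_left).1 h1
    | one => exact hφker'
    | mul k l hk' _ hk hl =>
      intro e he hg
      obtain ⟨e₁, he₁, hg₁⟩ := hs k
      have e1 : e = e₁ * (e₁⁻¹ * e) := by group
      rw [e1, hφmul _ _ (hg₁ ▸ hk')]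
      refine dvd_add (hk e₁ he₁ hg₁) (hl _ (E.mul_mem (E.inv_mem he₁) he) ?_)
      simp [hg₁, hg]
    | inv k hk' hk =>
      intro e he hg
      have h1 := hk e⁻¹ (E.inv_mem he) (by simp [hg])
      have h2 := hφmul e⁻¹ e (by simpa [hg] using hk')
      rw [inv_mul_cancel, hφone] at h2
      have : φ e = -φ e⁻¹ := by linear_combination -h2
      rw [this]
      exact (dvd_neg).2 h1
  obtain ⟨e, he, hex⟩ := hs x
  obtain ⟨d, hd⟩ := hdiv x hxK e he hex
  have hg : (e ^ p).g = 1 := by rw [SD.pow_g, hex, ← hx, pow_orderOf_eq_one]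
  have h1 := hφker _ (E.pow_mem he p) hg
  rw [hφpow e (hex ▸ hxK), pow_v_one e (by rw [hex]; exact hr e he), hd] at h1
  have hu : IsUnit (e.v 1 - p * d) := by
    apply isUnit_of_red
    rw [map_sub, map_mul, map_natCast, ZMod.natCast_self, zero_mul, sub_zero, hred e he, hex,
      mul_one]
    have := ht x⁻¹
    rw [inv_mul_cancel] at this
    rw [this]; ring
  have h2 : ((n * p : ℕ) : ZMod (p ^ (n + 1))) = 0 := by
    apply (hu.mul_left_eq_zero).1
    push_cast
    linear_combination -h1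
  rw [ZMod.natCast_eq_zero_iff] at h2
  have hnpos : 0 < n := Fintype.card_pos
  have h3 := Nat.le_of_dvd (Nat.mul_pos hnpos hp.out.pos) h2
  have h4 : n < p ^ n := Nat.lt_pow_self hp.out.one_lt
  rw [pow_succ] at h3
  have := Nat.le_of_mul_le_mul_right h3 hp.out.pos
  omega

theorem exists_wreath {G : Type} [Group G] (hG : 𝔉.F G) (p : ℕ) [hp : Fact p.Prime]
    (hdvd : p ∣ Nat.card G) :
    ∃ (K₀ K : Subgroup G) (_ : K₀.Normal) (_ : K.Normal),
      𝔉.F (SD (Fn (ZMod p) (G ⧸ K₀)) (G ⧸ K₀)) ∧ ¬ p ∣ Nat.card K ∧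
      ∀ x ∈ K₀, ∃ n : ℕ, x ^ (p ^ n) ∈ K := by
  classical
  have := 𝔉.fin G hG
  have := Fintype.ofFinite G
  obtain ⟨S, hS, hmax⟩ := 𝔉.exists_max_good (Fn (ZMod p) G) hG
  have hleft : ∀ g : G, ∀ f ∈ S, g • f ∈ S := fun g f hf => hS.inv g hf
  have hright : ∀ c : G, ∀ f ∈ S, Fn.of (fun y => f (y * c)) ∈ S := by
    intro c f hf
    let θ : Fn (ZMod p) G →+ Fn (ZMod p) G :=
      { toFun := fun f => Fn.of fun y => f (y * c)
        map_zero' := rfl
        map_add' := fun _ _ => rfl }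
    have : 𝔉.Good G (S.map θ) := by
      refine hS.map S le_rfl hleft (MonoidHom.id G) Function.surjective_id θ
        (fun a _ b _ => rfl) ?_ _ (fun v => Iff.rfl)
      intro g a _
      ext y
      show a (g⁻¹ * (y * c)) = a (g⁻¹ * y * c)
      rw [mul_assoc]
    exact hmax _ this ⟨f, hf, rfl⟩
  have hboth : ∀ u w : G, ∀ f ∈ S, Fn.of (fun y => f (u * y * w)) ∈ S := by
    intro u w f hf
    have := hleft u⁻¹ _ (hright w f hf)
    convert this using 1
    ext y
    simp
  have hmul : ∀ a ∈ S, ∀ b ∈ S, a * b ∈ S := fun a ha b hb =>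
    hmax _ hS.mul (AddSubgroup.subset_closure ⟨a, ha, b, hb, rfl⟩)
  have hscal : ∀ c : ZMod p, ∀ f ∈ S, Fn.of (fun y => c * f y) ∈ S := by
    intro c f hf
    have := S.nsmul_mem hf c.val
    convert this using 1
    ext y
    simp
  obtain ⟨x, hx⟩ := exists_prime_orderOf_dvd_card' p hdvd
  obtain ⟨f₀, hf₀, hf₀1⟩ := 𝔉.max_ne_bot hG p x hx S hmax
  have hone : (1 : Fn (ZMod p) G) ∈ S := by
    let h : G → Fn (ZMod p) G := fun y => Fn.of fun z => (f₀ 1)⁻¹ * (y • f₀) z
    have hh : ∀ y, h y ∈ S := fun y => hscal _ _ (hleft y f₀ hf₀)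
    have hh1 : ∀ y, h y y = 1 := by
      intro y
      simp [h, hf₀1]
    have key : ∀ s : Finset G, 1 - ∏ y ∈ s, (1 - h y) ∈ S := by
      intro s
      induction s using Finset.induction_on with
      | empty => simp
      | insert a s ha ih =>
        rw [Finset.prod_insert ha]
        have := S.sub_mem (S.add_mem (hh a) ih) (hmul _ (hh a) _ ih)
        convert this using 1
        ring
    have := key Finset.univ
    convert this using 1
    ext y
    rw [Fn.sub_apply, Fn.prod_apply, Finset.prod_eq_zero (Finset.mem_univ y) (by simp [hh1])]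
    simp
  have hprod : ∀ (s : Finset G) (h : G → Fn (ZMod p) G), (∀ y ∈ s, h y ∈ S) → ∏ y ∈ s, h y ∈ S := by
    intro s h hs
    induction s using Finset.induction_on with
    | empty => simpa using hone
    | insert a s ha ih =>
      rw [Finset.prod_insert ha]
      exact hmul _ (hs a (Finset.mem_insert_self _ _)) _
        (ih fun y hy => hs y (Finset.mem_insert_of_mem hy))
  let K₀ : Subgroup G :=
    { carrier := {c | ∀ f ∈ S, ∀ u w, f (u * c * w) = f (u * w)}
      mul_mem' := by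
        intro a b ha hb f hf u w
        have h1 := ha f hf u (b * w)
        have h2 := hb f hf u w
        rw [← h2]
        simpa [mul_assoc] using h1
      one_mem' := by intro f _ u w; simp
      inv_mem' := by
        intro a ha f hf u w
        have h1 := ha f hf (u * a⁻¹) w
        simpa [mul_assoc] using h1.symm }
  have hK₀ : K₀.Normal := ⟨by
    intro c hc g f hf u w
    have h1 := hc f hf (u * g) (g⁻¹ * w)
    simpa [mul_assoc] using h1⟩
  have hinvK : ∀ f ∈ S, ∀ u u' : G, (u : G ⧸ K₀) = u' → f u = f u' := by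
    intro f hf u u' h
    have h1 := (QuotientGroup.eq.1 h) f hf u 1
    simpa using h1.symm
  have hsep : ∀ y y' : G, (y : G ⧸ K₀) ≠ y' → ∃ f ∈ S, f y ≠ f y' := by
    intro y y' hne
    by_contra hcon
    push Not at hcon
    apply hne
    rw [QuotientGroup.eq]
    intro f hf u w
    have h1 := hcon _ (hboth (u * y⁻¹) w f hf)
    simpa [mul_assoc] using h1.symm
  have hind : ∀ y₀ : G, ∃ I ∈ S, ∀ z : G, I z = if (y₀ : G ⧸ K₀) = z then 1 else 0 := by
    intro y₀
    have h1 : ∀ y : G, ∃ h ∈ S, h y₀ = 1 ∧ ((y₀ : G ⧸ K₀) ≠ y → h y = 0) := by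
      intro y
      by_cases hy : (y₀ : G ⧸ K₀) = y
      · exact ⟨1, hone, rfl, fun h => absurd hy h⟩
      · obtain ⟨f, hf, hne⟩ := hsep y₀ y hy
        have hc : Fn.of (fun _ => f y) ∈ S := by
          have := hscal (f y) 1 hone
          simpa using this
        refine ⟨_, hscal (f y₀ - f y)⁻¹ _ (S.sub_mem hf hc), ?_, fun _ => by simp⟩
        simp only [Fn.sub_apply, Fn.of_apply]
        exact inv_mul_cancel₀ (sub_ne_zero.2 hne)
    choose h hhS hh1 hh0 using h1
    refine ⟨∏ y, h y, hprod _ _ fun y _ => hhS y, fun z => ?_⟩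
    rw [Fn.prod_apply]
    split_ifs with hz
    · apply Finset.prod_eq_one
      intro y _
      rw [← hinvK _ (hhS y) _ _ hz, hh1]
    · exact Finset.prod_eq_zero (Finset.mem_univ z) (hh0 z hz)
  have hW : 𝔉.Good (G ⧸ K₀) (⊤ : AddSubgroup (Fn (ZMod p) (G ⧸ K₀))) := by
    refine hS.map S le_rfl hleft (QuotientGroup.mk' K₀) (QuotientGroup.mk'_surjective K₀)
      (fun f => Fn.of fun q : G ⧸ K₀ => f q.out) (fun a _ b _ => rfl) ?_ ⊤ ?_
    · intro g a ha
      ext q
      simp only [Fn.smul_apply, Fn.of_apply]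
      apply hinvK a ha
      simp
    · intro Φ
      refine ⟨fun _ => ?_, fun _ => trivial⟩
      choose I hIS hI using hind
      have := Fintype.ofFinite (G ⧸ K₀)
      let J : G ⧸ K₀ → Fn (ZMod p) G := fun q => Fn.of fun z => Φ q * I q.out z
      refine ⟨∑ q, J q, S.sum_mem fun q _ => hscal _ _ (hIS _), ?_⟩
      ext q
      simp only [Fn.sum_apply, J, hI, Fn.of_apply]
      rw [Finset.sum_eq_single q]
      · simp
      · intro b _ hb
        simp [hb]
      · simp
  let Γ : Set G := {k | k ∈ K₀ ∧ (orderOf k).Coprime p}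
  have hK : (Subgroup.closure Γ).Normal := ⟨by
    intro k hk g
    induction hk using Subgroup.closure_induction with
    | mem k hk =>
      apply Subgroup.subset_closure
      refine ⟨hK₀.conj_mem k hk.1 g, ?_⟩
      have : orderOf (g * k * g⁻¹) = orderOf k := by
        have := MulEquiv.orderOf_eq (MulAut.conj g) k
        simpa using this
      rw [this]
      exact hk.2
    | one => simp
    | mul k l _ _ hk hl =>
      have := Subgroup.mul_mem _ hk hl
      convert this using 1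
      group
    | inv k _ hk =>
      have := Subgroup.inv_mem _ hk
      convert this using 1
      group⟩
  refine ⟨K₀, Subgroup.closure Γ, hK₀, hK, (Good.top_iff 𝔉).1 hW, ?_, ?_⟩
  · intro hd
    obtain ⟨z, hz⟩ := exists_prime_orderOf_dvd_card' p hd
    refine 𝔉.not_mem_closure hG p S hmax Γ ?_ z.1 (by rw [Subgroup.orderOf_coe, hz]) z.2
    intro k hk
    refine ⟨fun f hf => ?_, hk.2⟩
    ext y
    have h1 := (K₀.inv_mem hk.1) f hf 1 y
    simpa using h1
  · intro z hz
    obtain ⟨n, m, hm, e⟩ := Nat.exists_eq_pow_mul_and_not_dvd (orderOf_pos z).ne' p hp.out.ne_one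
    refine ⟨n, Subgroup.subset_closure ⟨K₀.pow_mem hz _, ?_⟩⟩
    have h1 : orderOf (z ^ p ^ n) ∣ m := by
      apply orderOf_dvd_of_pow_eq_one
      rw [← pow_mul, ← e, pow_orderOf_eq_one]
    exact Nat.Coprime.coprime_dvd_left h1 ((Nat.Prime.coprime_iff_not_dvd hp.out).2 hm).symm

end SatForm

end Pool.Agent.MP_9bf990_al

end MrgPart2

-- ======== part 3: formerly Pool.Agent.MP_9bf990_al.Subnormal
section MrgPart3

/-!
Subnormality with respect to a saturated formation, and the key consequence of the lattice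
property inside a regular wreath product.
-/

set_option autoImplicit false
set_option linter.unusedSectionVars false

namespace Pool.Agent.MP_9bf990_al

namespace SatForm

variable (𝔉 : SatForm)

/-- `L` contains the residual of `K`. -/
def Cond {G : Type} [Group G] (L K : Subgroup G) : Prop :=
  ∃ N : Subgroup K, ∃ _ : N.Normal, 𝔉.F (K ⧸ N) ∧ N ≤ L.subgroupOf K

/-- Subnormal subgroups with respect to the formation. -/
inductive Sn {G : Type} [Group G] : Subgroup G → Prop
  | top : Sn ⊤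
  | step (K L : Subgroup G) : Sn K → L < K →
      (∀ M : Subgroup G, L ≤ M → M ≤ K → M = L ∨ M = K) → 𝔉.Cond L K → Sn L

/-- The lattice property. -/
def Lat : Prop :=
  ∀ (G : Type) [Group G] [Finite G] (A B : Subgroup G), 𝔉.Sn A → 𝔉.Sn B →
    𝔉.Sn (A ⊓ B) ∧ 𝔉.Sn (A ⊔ B)

theorem cond_of_mem {G : Type} [Group G] (L K : Subgroup G) (h : 𝔉.F K) : 𝔉.Cond L K :=
  ⟨⊥, inferInstance, 𝔉.of_equiv QuotientGroup.quotientBot.symm h, bot_le⟩

theorem Sn.down {𝔉 : SatForm} {G : Type} [Group G] [Finite G] {K T : Subgroup G} (hK : 𝔉.Sn K)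
    (hTK : T ≤ K) (h : ∀ P : Subgroup G, T ≤ P → P ≤ K → 𝔉.F P) : 𝔉.Sn T := by
  have key : ∀ P : Subgroup G, T ≤ P → P ≤ K → 𝔉.Sn P := by
    intro P
    induction P using WellFoundedGT.induction with
    | ind P ih =>
      intro h1 h2
      rcases h2.lt_or_eq with h3 | rfl
      · obtain ⟨P', hc, hP'⟩ := exists_covBy_le_of_lt h3
        refine Sn.step P' P (ih P' hc.lt (h1.trans hc.le) hP') hc.lt ?_
          (𝔉.cond_of_mem _ _ (h P' (h1.trans hc.le) hP'))
        intro M hM1 hM2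
        exact hc.eq_or_eq hM1 hM2
      · exact hK
  exact key T le_rfl hTK

theorem Sn.sup_normal {𝔉 : SatForm} {G : Type} [Group G] (N : Subgroup G) [hN : N.Normal]
    {H : Subgroup G} (hH : 𝔉.Sn H) : 𝔉.Sn (H ⊔ N) := by
  induction hH with
  | top => rw [top_sup_eq]; exact Sn.top
  | step K L _ hlt hmax hcond ih =>
    by_cases he : L ⊔ N = K ⊔ N
    · rw [he]; exact ih
    refine Sn.step (K ⊔ N) (L ⊔ N) ih (lt_of_le_of_ne (sup_le_sup_right hlt.le N) he) ?_ ?_
    · intro P h1 h2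
      rcases hmax (P ⊓ K) (le_inf (le_sup_left.trans h1) hlt.le) inf_le_right with h3 | h3
      · left
        refine le_antisymm ?_ h1
        intro x hx
        obtain ⟨k, hk, n, hn, rfl⟩ := Subgroup.mem_sup_of_normal_right.1 (h2 hx)
        have hnP : n ∈ P := h1 (Subgroup.mem_sup_right hn)
        have hkP : k ∈ P := by
          have := P.mul_mem hx (P.inv_mem hnP)
          simpa using this
        have hkL : k ∈ L := by rw [← h3]; exact ⟨hkP, hk⟩
        exact Subgroup.mul_mem_sup hkL hn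
      · right
        refine le_antisymm h2 (sup_le ?_ (le_sup_right.trans h1))
        rw [← h3]; exact inf_le_left
    · obtain ⟨N', hN', hF, hle⟩ := hcond
      refine ⟨((L ⊔ N).subgroupOf (K ⊔ N)).normalCore, inferInstance, ?_,
        Subgroup.normalCore_le _⟩
      refine 𝔉.of_surj_quot ((QuotientGroup.mk' _).comp (Subgroup.inclusion le_sup_left)) ?_ N'
        ?_ hF
      · intro q
        obtain ⟨⟨y, hy⟩, rfl⟩ := QuotientGroup.mk'_surjective _ q
        obtain ⟨k, hk, n, hn, rfl⟩ := Subgroup.mem_sup_of_normal_right.1 hy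
        refine ⟨⟨k, hk⟩, ?_⟩
        simp only [MonoidHom.comp_apply, QuotientGroup.mk'_apply]
        rw [QuotientGroup.eq]
        intro b
        rw [Subgroup.mem_subgroupOf]
        apply Subgroup.mem_sup_right
        have := hN.conj_mem n hn b
        simpa using this
      · intro x hx
        simp only [MonoidHom.comp_apply, QuotientGroup.mk'_apply]
        rw [QuotientGroup.eq_one_iff]
        rintro ⟨b, hb⟩
        rw [Subgroup.mem_subgroupOf]
        obtain ⟨k, hk, n, hn, rfl⟩ := Subgroup.mem_sup_of_normal_right.1 hb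
        have h1 : ((⟨k, hk⟩ * x * ⟨k, hk⟩⁻¹ : K) : G) ∈ L := hle (hN'.conj_mem x hx ⟨k, hk⟩)
        have h2 : k * ((x : G)⁻¹ * n * (x : G)⁻¹⁻¹ * n⁻¹) * k⁻¹ ∈ N :=
          hN.conj_mem _ (N.mul_mem (hN.conj_mem n hn _) (N.inv_mem hn)) k
        have := Subgroup.mul_mem_sup h1 h2
        convert this using 1
        simp only [Subgroup.coe_mul, InvMemClass.coe_inv, Subgroup.coe_inclusion]
        group

theorem cyc_mem {Q : Type} [Group Q] (p : ℕ) (hW : 𝔉.F (SD (Fn (ZMod p) Q) Q)) [Finite Q] :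
    𝔉.F (Multiplicative (ZMod p)) := by
  classical
  have := Fintype.ofFinite Q
  let ψ : SD (Fn (ZMod p) Q) Q →* Multiplicative (ZMod p) :=
    { toFun := fun e => Multiplicative.ofAdd (∑ y, e.v y)
      map_one' := by simp
      map_mul' := by
        intro e e'
        rw [← ofAdd_add]
        have h1 : ∑ y, e'.v (e.g⁻¹ * y) = ∑ y, e'.v y :=
          Fintype.sum_equiv (Equiv.mulLeft e.g⁻¹) _ _ (fun y => rfl)
        rw [← h1]
        exact congrArg _ (Finset.sum_add_distrib (f := fun y => (e.v y : ZMod p))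
          (g := fun y => (e'.v (e.g⁻¹ * y) : ZMod p))) }
  refine 𝔉.of_surj ψ ?_ hW
  intro c
  refine ⟨⟨Fn.of fun y => if y = 1 then c.toAdd else 0, 1⟩, ?_⟩
  show Multiplicative.ofAdd (∑ y : Q, if y = 1 then c.toAdd else 0) = c
  rw [Finset.sum_ite_eq']
  simp

theorem base_mem {Q : Type} [Group Q] [Finite Q] (p : ℕ) [hp : Fact p.Prime]
    (hW : 𝔉.F (SD (Fn (ZMod p) Q) Q)) (P : Subgroup (SD (Fn (ZMod p) Q) Q))
    (hP : ∀ x ∈ P, x.g = 1) : 𝔉.F P := by
  have hC := 𝔉.cyc_mem p hW
  let ev : Q → (P →* Multiplicative (ZMod p)) := fun y =>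
    { toFun := fun e => Multiplicative.ofAdd (e.1.v y)
      map_one' := rfl
      map_mul' := by
        intro e e'
        rw [← ofAdd_add]
        simp [hP e.1 e.2] }
  refine 𝔉.of_subdirect_fin (fun y => (ev y).ker) (fun y => inferInstance) ?_ ?_
  · intro y
    have : Fact (Nat.card (Multiplicative (ZMod p))).Prime := ⟨by simpa using hp.out⟩
    have h1 : 𝔉.F (ev y).range := by
      rcases (ev y).range.eq_bot_or_eq_top_of_prime_card with h | h
      · rw [h]; exact 𝔉.of_subsingleton _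
      · rw [h]; exact 𝔉.of_equiv Subgroup.topEquiv.symm hC
    exact 𝔉.of_equiv (QuotientGroup.quotientKerEquivRange (ev y)).symm h1
  · intro e he
    apply Subtype.ext
    ext y
    · exact he y
    · exact hP e.1 e.2

theorem wreath_step (hL : 𝔉.Lat) {Q : Type} [Group Q] [Finite Q] (p : ℕ) [hp : Fact p.Prime]
    (hW : 𝔉.F (SD (Fn (ZMod p) Q) Q)) (M : Subgroup Q) (hM : IsCoatom M)
    (W : AddSubgroup (Fn (ZMod p) Q)) (hinv : ∀ m ∈ M, ∀ w ∈ W, m • w ∈ W) (hne : W ≠ ⊤)
    (hW0 : ∀ f : Fn (ZMod p) Q, (∀ m ∈ M, f m = 0) → f ∈ W)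
    (hmax : ∀ S : AddSubgroup (Fn (ZMod p) Q), (∀ m ∈ M, ∀ w ∈ S, m • w ∈ S) → W ≤ S →
      S = W ∨ S = ⊤) :
    𝔉.Cond (SD.pair W M hinv) (SD.pair ⊤ M (fun _ _ _ _ => trivial)) := by
  classical
  have := Fintype.ofFinite Q
  let T : Subgroup (SD (Fn (ZMod p) Q) Q) := SD.pair ⊥ ⊤ (by simp +contextual)
  let B : Subgroup (SD (Fn (ZMod p) Q) Q) := SD.pair ⊤ ⊥ (fun _ _ _ _ => trivial)
  let TM : Subgroup (SD (Fn (ZMod p) Q) Q) := SD.pair ⊥ M (by simp +contextual)
  let BW : Subgroup (SD (Fn (ZMod p) Q) Q) := SD.pair W ⊥ (by simp +contextual)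
  have hgood : 𝔉.Good Q (⊤ : AddSubgroup (Fn (ZMod p) Q)) := (Good.top_iff 𝔉).2 hW
  -- all overgroups of the complement lie in the formation
  have hup : ∀ P : Subgroup (SD (Fn (ZMod p) Q) Q), T ≤ P → 𝔉.F P := by
    intro P hP
    have hg : ∀ g : Q, (⟨0, g⟩ : (SD (Fn (ZMod p) Q) Q)) ∈ P := fun g => hP ⟨rfl, trivial⟩
    have h1 : 𝔉.Good Q (kerMod P) := by
      refine hgood.sub _ le_top ?_
      intro g w hw
      have := P.mul_mem (P.mul_mem (hg g) hw) (P.inv_mem (hg g))
      rw [mem_kerMod]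
      convert this using 1
      ext <;> simp
    obtain ⟨K, hK, hF⟩ := h1
    have : K = P := by
      ext x
      rw [hK, mem_kerMod]
      constructor
      · intro h
        have := P.mul_mem h (hg x.g)
        convert this using 1
        ext <;> simp
      · intro h
        have := P.mul_mem h (P.inv_mem (hg x.g))
        convert this using 1
        ext <;> simp
    exact this ▸ hF
  have hT : 𝔉.Sn T := Sn.top.down le_top fun P h _ => hup P h
  let δ : Q → Fn (ZMod p) Q := fun g => Fn.of fun y => if y = g then 1 else 0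
  let c : (SD (Fn (ZMod p) Q) Q) := ⟨δ 1, 1⟩
  have hT' : 𝔉.Sn (T.map (MulAut.conj c).toMonoidHom) := by
    refine Sn.top.down le_top fun P h _ => ?_
    have h1 : T ≤ P.comap (MulAut.conj c).toMonoidHom := Subgroup.map_le_iff_le_comap.1 h
    have h2 := hup _ h1
    refine 𝔉.of_surj ((MulAut.conj c).toMonoidHom.subgroupComap P) ?_ h2
    exact MonoidHom.subgroupComap_surjective_of_surjective _ _ (MulAut.conj c).surjective
  have hbot : 𝔉.Sn (⊥ : Subgroup (SD (Fn (ZMod p) Q) Q)) := by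
    have h1 := (hL (SD (Fn (ZMod p) Q) Q) _ _ hT hT').1
    have : T ⊓ T.map (MulAut.conj c).toMonoidHom = ⊥ := by
      rw [eq_bot_iff]
      rintro x ⟨hx, ⟨⟨v, g⟩, ⟨hv, -⟩, rfl⟩⟩
      have hv' : v = 0 := hv
      subst hv'
      have h2 : (c * ⟨0, g⟩ * c⁻¹ : (SD (Fn (ZMod p) Q) Q)).v = 0 := hx.1
      have h3 := congrFun h2 1
      have hg : g = 1 := by
        by_contra hg
        simp [c, δ, hg] at h3
      subst hg
      rw [Subgroup.mem_bot]
      have : (⟨0, 1⟩ : (SD (Fn (ZMod p) Q) Q)) = 1 := rfl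
      rw [this, map_one]
    rwa [this] at h1
  have hBn : B.Normal := ⟨by
    rintro x ⟨-, hx⟩ y
    refine ⟨trivial, ?_⟩
    have : x.g = 1 := hx
    simp [this]⟩
  have hB : 𝔉.Sn B := by
    have := hbot.sup_normal B
    rwa [bot_sup_eq] at this
  have hBW : 𝔉.Sn BW := by
    refine hB.down (fun x hx => ⟨trivial, hx.2⟩) fun P _ h => ?_
    exact 𝔉.base_mem p hW P fun x hx => (h hx).2
  have hTM : 𝔉.Sn TM := by
    refine Sn.step T TM hT ?_ ?_ (𝔉.cond_of_mem _ _ (hup T le_rfl))
    · refine lt_of_le_of_ne (fun x hx => ⟨hx.1, trivial⟩) fun h => hM.1 ?_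
      rw [eq_top_iff]
      intro g _
      have : (⟨0, g⟩ : (SD (Fn (ZMod p) Q) Q)) ∈ TM := by rw [h]; exact ⟨rfl, trivial⟩
      exact this.2
    · intro P h1 h2
      have h3 : M ≤ P.map SD.proj := fun m hm => ⟨⟨0, m⟩, h1 ⟨rfl, hm⟩, rfl⟩
      rcases h3.lt_or_eq with h4 | h4
      · right
        refine le_antisymm h2 ?_
        rintro ⟨v, g⟩ ⟨hv, -⟩
        have hv' : v = 0 := hv
        subst hv'
        have : g ∈ P.map SD.proj := by rw [hM.2 _ h4]; trivial
        obtain ⟨⟨v, g'⟩, hx, rfl⟩ := this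
        have hv' : v = 0 := (h2 hx).1
        subst hv'
        exact hx
      · left
        refine le_antisymm ?_ h1
        intro x hx
        exact ⟨(h2 hx).1, by rw [h4]; exact ⟨x, hx, rfl⟩⟩
  have hH : 𝔉.Sn (SD.pair W M hinv) := by
    have h1 := (hL (SD (Fn (ZMod p) Q) Q) _ _ hBW hTM).2
    have : BW ⊔ TM = SD.pair W M hinv := by
      apply le_antisymm
      · refine sup_le ?_ ?_
        · rintro x ⟨h1, h2⟩
          exact ⟨h1, by rw [Subgroup.mem_bot.1 h2]; exact M.one_mem⟩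
        · rintro x ⟨h1, h2⟩
          exact ⟨by rw [AddSubgroup.mem_bot.1 h1]; exact W.zero_mem, h2⟩
      · rintro x ⟨h1, h2⟩
        have := Subgroup.mul_mem_sup (S := BW) (T := TM) (x := ⟨x.v, 1⟩) (y := ⟨0, x.g⟩)
          ⟨h1, Subgroup.mem_bot.2 rfl⟩ ⟨rfl, h2⟩
        convert this using 1
        ext <;> simp
    rwa [this] at h1
  obtain ⟨w₀, hw₀⟩ : ∃ w₀, w₀ ∉ W := by
    by_contra hcon
    push Not at hcon
    exact hne (eq_top_iff.2 fun w _ => hcon w)
  generalize hHH : SD.pair W M hinv = H at hH ⊢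
  have hmemH : ∀ x : (SD (Fn (ZMod p) Q) Q), x ∈ H ↔ x.v ∈ W ∧ x.g ∈ M := by
    intro x; rw [← hHH]; rfl
  cases hH with
  | top => exact absurd ((hmemH ⟨w₀, 1⟩).1 trivial).1 hw₀
  | step K _ _ hlt hmx hcond =>
    have hgK : ∀ m ∈ M, (⟨0, m⟩ : (SD (Fn (ZMod p) Q) Q)) ∈ K := fun m hm => hlt.le ((hmemH _).2 ⟨W.zero_mem, hm⟩)
    have hconj : ∀ x ∈ K, ∀ w ∈ kerMod K, x.g • w ∈ kerMod K := by
      intro x hx w hw
      have := K.mul_mem (K.mul_mem hx hw) (K.inv_mem hx)
      rw [mem_kerMod]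
      convert this using 1
      ext <;> simp
    rcases hmax (kerMod K) (fun m hm w hw => hconj _ (hgK m hm) w hw)
      (fun w hw => hlt.le ((hmemH _).2 ⟨hw, M.one_mem⟩)) with h1 | h1
    · exfalso
      have h3 : M ≤ K.map SD.proj := fun m hm => ⟨⟨0, m⟩, hgK m hm, rfl⟩
      rcases h3.lt_or_eq with h4 | h4
      · have hWinv : ∀ g : Q, ∀ w ∈ W, g • w ∈ W := by
          intro g w hw
          have : g ∈ K.map SD.proj := by rw [hM.2 _ h4]; trivial
          obtain ⟨x, hx, rfl⟩ := this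
          rw [← h1] at hw ⊢
          exact hconj x hx w hw
        obtain ⟨g₀, hg₀⟩ : ∃ g₀, g₀ ∉ M := by
          by_contra hcon
          push Not at hcon
          exact hM.1 (eq_top_iff.2 fun w _ => hcon w)
        apply hw₀
        have hδ : ∀ (c : ZMod p) (g : Q), Fn.of (fun y => if y = g then c else 0) ∈ W := by
          intro c g
          have h5 : Fn.of (fun y => if y = g₀ then c else 0) ∈ W := by
            apply hW0
            intro m hm
            have : m ≠ g₀ := fun h => hg₀ (h ▸ hm)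
            simp [this]
          have := hWinv (g * g₀⁻¹) _ h5
          convert this using 1
          ext y
          simp only [Fn.of_apply, Fn.smul_apply]
          congr 1
          rw [eq_iff_iff, inv_mul_eq_iff_eq_mul]
          simp
        have := W.sum_mem (t := Finset.univ) fun g _ => hδ (w₀ g) g
        convert this using 1
        ext y
        rw [Fn.sum_apply, Finset.sum_eq_single y]
        · simp
        · intro b _ hb
          simp [hb.symm]
        · simp
      · apply hlt.ne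
        refine le_antisymm hlt.le ?_
        intro x hx
        have hxM : x.g ∈ M := by rw [h4]; exact ⟨x, hx, rfl⟩
        refine (hmemH x).2 ⟨?_, hxM⟩
        rw [← h1, mem_kerMod]
        have := K.mul_mem hx (K.inv_mem (hgK _ hxM))
        convert this using 1
        ext <;> simp
    · have h2 : SD.pair ⊤ M (fun _ _ _ _ => trivial) ≤ K := by
        rintro x ⟨-, hx⟩
        have h3 : x.v ∈ kerMod K := by rw [h1]; trivial
        have := K.mul_mem h3 (hgK _ hx)
        convert this using 1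
        ext <;> simp
      rcases hmx (SD.pair ⊤ M (fun _ _ _ _ => trivial))
        (fun x hx => ⟨trivial, ((hmemH x).1 hx).2⟩) h2 with h3 | h3
      · exfalso
        apply hw₀
        have : (⟨w₀, 1⟩ : (SD (Fn (ZMod p) Q) Q)) ∈ H := by rw [← h3]; exact ⟨trivial, M.one_mem⟩
        exact ((hmemH _).1 this).1
      · rw [h3]; exact hcond

end SatForm

end Pool.Agent.MP_9bf990_al

end MrgPart3

-- ======== part 4: formerly Pool.Agent.MP_9bf990_al.Main
section MrgPart4

/-!
A saturated formation with the lattice property is closed under subgroups.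
-/

set_option autoImplicit false
set_option linter.unusedSectionVars false

namespace Pool.Agent.MP_9bf990_al

theorem val_add_nsmul {U : Type} [AddCommGroup U] (p : ℕ) [NeZero p] (hpU : ∀ u : U, p • u = 0)
    (a b : ZMod p) (u : U) : (a + b).val • u = a.val • u + b.val • u := by
  rw [ZMod.val_add, ← add_nsmul]
  conv_rhs => rw [← Nat.mod_add_div (a.val + b.val) p, add_nsmul, mul_nsmul, hpU]
  simp

namespace SatForm

variable (𝔉 : SatForm)

/-- Every simple quotient of a cyclic module of exponent `p` over `Γ` is central. -/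
def Central (p : ℕ) (Γ : Type) [Group Γ] : Prop :=
  ∀ (U : Type) [AddCommGroup U] [DistribMulAction Γ U], (∀ u : U, p • u = 0) → ∀ u₀ : U,
    (∀ S : AddSubgroup U, (∀ m : Γ, ∀ w ∈ S, m • w ∈ S) → u₀ ∈ S → S = ⊤) →
    ∀ W' : AddSubgroup U, (∀ m : Γ, ∀ w ∈ W', m • w ∈ W') → W' ≠ ⊤ →
    (∀ S : AddSubgroup U, (∀ m : Γ, ∀ w ∈ S, m • w ∈ S) → W' ≤ S → S = W' ∨ S = ⊤) →
    ∃ (N : Subgroup (SD U Γ)) (_ : N.Normal), 𝔉.F (SD U Γ ⧸ N) ∧ ∀ x ∈ N, x.v ∈ W'

theorem module_step (hL : 𝔉.Lat) {Q : Type} [Group Q] [Finite Q] (p : ℕ) [hp : Fact p.Prime]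
    (hW : 𝔉.F (SD (Fn (ZMod p) Q) Q)) (M : Subgroup Q) (hM : M = ⊤ ∨ IsCoatom M) :
    𝔉.Central p M := by
  classical
  intro U _ _ hpU u₀ hgen W' hinv hne hmax
  have := Fintype.ofFinite M
  let φ : Fn (ZMod p) Q →+ U :=
    { toFun := fun f => ∑ m : M, (f m : ZMod p).val • (m • u₀)
      map_zero' := by simp
      map_add' := by
        intro f h
        rw [← Finset.sum_add_distrib]
        apply Finset.sum_congr rfl
        intro m _
        exact val_add_nsmul p hpU _ _ _ }
  have hφ : ∀ f, φ f = ∑ m : M, (f m : ZMod p).val • (m • u₀) := fun f => rfl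
  have hequiv : ∀ (m : M) (f : Fn (ZMod p) Q), φ ((m : Q) • f) = m • φ f := by
    intro m f
    rw [hφ, hφ, Finset.smul_sum]
    refine (Fintype.sum_equiv (Equiv.mulLeft m) _ _ fun y => ?_).symm
    simp [mul_smul, smul_comm m]
  have hsurj : Function.Surjective φ := by
    rw [← AddMonoidHom.range_eq_top]
    apply hgen
    · rintro m _ ⟨f, rfl⟩
      exact ⟨_, hequiv m f⟩
    · refine ⟨Fn.of fun y => if y = 1 then 1 else 0, ?_⟩
      rw [hφ, Finset.sum_eq_single 1]
      · simp [ZMod.val_one]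
      · intro b _ hb
        simp [hb]
      · simp
  have hWinv : ∀ m ∈ M, ∀ w ∈ W'.comap φ, m • w ∈ W'.comap φ := by
    intro m hm w hw
    rw [AddSubgroup.mem_comap, hequiv ⟨m, hm⟩]
    exact hinv _ _ hw
  have hcond : 𝔉.Cond (SD.pair (W'.comap φ) M hWinv) (SD.pair ⊤ M (fun _ _ _ _ => trivial)) := by
    rcases hM with hM | hM
    · apply cond_of_mem
      refine 𝔉.of_surj (MonoidHom.codRestrict (MonoidHom.id _) _ fun x => ⟨trivial, ?_⟩) ?_ hW
      · rw [hM]; trivial
      · rintro ⟨x, hx⟩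
        exact ⟨x, rfl⟩
    · refine 𝔉.wreath_step hL p hW M hM _ hWinv ?_ ?_ ?_
      · intro h
        apply hne
        rw [eq_top_iff]
        intro u _
        obtain ⟨f, rfl⟩ := hsurj u
        have : f ∈ W'.comap φ := by rw [h]; trivial
        exact this
      · intro f hf
        rw [AddSubgroup.mem_comap, hφ, Finset.sum_eq_zero]
        · exact W'.zero_mem
        · intro m _
          rw [hf m m.2]
          simp
      · intro S hS hle
        rcases hmax (S.map φ) (by
          rintro m _ ⟨f, hf, rfl⟩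
          exact ⟨_, hS m m.2 f hf, hequiv m f⟩) (by
          intro u hu
          obtain ⟨f, rfl⟩ := hsurj u
          exact ⟨f, hle hu, rfl⟩) with h | h
        · left
          refine le_antisymm ?_ hle
          intro f hf
          rw [AddSubgroup.mem_comap, ← h]
          exact ⟨f, hf, rfl⟩
        · right
          rw [eq_top_iff]
          intro f _
          have : φ f ∈ S.map φ := by rw [h]; trivial
          obtain ⟨f', hf', e⟩ := this
          have h2 : f - f' ∈ W'.comap φ := by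
            rw [AddSubgroup.mem_comap, map_sub, e, sub_self]
            exact W'.zero_mem
          have := S.add_mem (hle h2) hf'
          simpa using this
  obtain ⟨N', hN', hF, hle⟩ := hcond
  let χ : SD.pair (⊤ : AddSubgroup (Fn (ZMod p) Q)) M (fun _ _ _ _ => trivial) →* SD U M :=
    { toFun := fun x => ⟨φ x.1.v, ⟨x.1.g, x.2.2⟩⟩
      map_one' := by
        ext
        · simp
        · rfl
      map_mul' := by
        intro x y
        ext
        · simp only [Subgroup.coe_mul, SD.mul_v, map_add]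
          rw [← hequiv]
        · rfl }
  have hχ : Function.Surjective χ := by
    rintro ⟨u, m⟩
    obtain ⟨f, rfl⟩ := hsurj u
    exact ⟨⟨⟨f, m⟩, trivial, m.2⟩, rfl⟩
  have hNn : (N'.map χ).Normal := hN'.map χ hχ
  refine ⟨N'.map χ, hNn, ?_, ?_⟩
  · refine 𝔉.of_surj_quot ((QuotientGroup.mk' _).comp χ)
      ((QuotientGroup.mk'_surjective _).comp hχ) N' ?_ hF
    intro x hx
    simp only [MonoidHom.comp_apply, QuotientGroup.mk'_apply]
    rw [QuotientGroup.eq_one_iff]
    exact ⟨x, hx, rfl⟩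
  · rintro _ ⟨x, hx, rfl⟩
    exact (hle hx).1

theorem finish_abelian {Y Γ : Type} [Group Y] [Group Γ] (p : ℕ) (hC : 𝔉.Central p Γ)
    (N T : Subgroup Y) [hN : N.Normal] (hN0 : N ≠ ⊥)
    (hmono : ∀ P : Subgroup Y, P.Normal → P ≠ ⊥ → N ≤ P) (hNT : ¬ N ≤ T)
    (hcomm : ∀ a ∈ N, ∀ b ∈ N, a * b = b * a) (hexp : ∀ a ∈ N, a ^ p = 1)
    (τ : Γ →* Y) (hτT : ∀ m, τ m ∈ T) (hτ : ∀ y, ∃ m, y * (τ m)⁻¹ ∈ N) : 𝔉.F Y := by
  let _ : CommGroup N :=
    { (inferInstance : Group N) with mul_comm := fun a b => Subtype.ext (hcomm _ a.2 _ b.2) }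
  let _ : DistribMulAction Γ (Additive N) :=
    { smul := fun m u => Additive.ofMul (MulAut.conjNormal (τ m) u.toMul)
      one_smul := fun u => by
        show Additive.ofMul (MulAut.conjNormal (τ 1) u.toMul) = u
        simp
      mul_smul := fun a b u => by
        show Additive.ofMul (MulAut.conjNormal (τ (a * b)) u.toMul) =
          Additive.ofMul (MulAut.conjNormal (τ a) (MulAut.conjNormal (τ b) u.toMul))
        simp
      smul_zero := fun a => by
        show Additive.ofMul (MulAut.conjNormal (τ a) 1) = 0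
        simp
      smul_add := fun a u w => by
        show Additive.ofMul (MulAut.conjNormal (τ a) (u.toMul * w.toMul)) =
          Additive.ofMul (MulAut.conjNormal (τ a) u.toMul) +
          Additive.ofMul (MulAut.conjNormal (τ a) w.toMul)
        simp }
  have hsmul : ∀ (m : Γ) (u : Additive N),
      (((m • u).toMul : N) : Y) = τ m * (u.toMul : N) * (τ m)⁻¹ := fun m u => rfl
  have hirr : ∀ S : AddSubgroup (Additive N), (∀ m : Γ, ∀ w ∈ S, m • w ∈ S) → S = ⊥ ∨ S = ⊤ := by
    intro S hS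
    let S' : Subgroup Y := (AddSubgroup.toSubgroup' S).map N.subtype
    have hS' : S'.Normal := ⟨by
      rintro _ ⟨a, ha, rfl⟩ y
      obtain ⟨m, hm⟩ := hτ y
      refine ⟨(m • Additive.ofMul a).toMul, hS m _ ha, ?_⟩
      have h1 := hsmul m (Additive.ofMul a)
      have h2 := hcomm _ hm _ (hN.conj_mem _ a.2 (τ m))
      simp only [Subgroup.coe_subtype]
      rw [h1]
      have e : y * a * y⁻¹ = (y * (τ m)⁻¹ * (τ m * a * (τ m)⁻¹)) * (y * (τ m)⁻¹)⁻¹ := by group
      rw [e, h2, mul_inv_cancel_right]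
      rfl⟩
    by_cases h : S' = ⊥
    · left
      rw [eq_bot_iff]
      intro u hu
      have : ((u.toMul : N) : Y) ∈ S' := ⟨u.toMul, hu, rfl⟩
      rw [h, Subgroup.mem_bot] at this
      have h2 : u.toMul = 1 := Subtype.ext this
      exact h2
    · right
      rw [eq_top_iff]
      intro u _
      obtain ⟨a, ha, e⟩ := hmono S' hS' h u.toMul.2
      have : a = u.toMul := Subtype.ext e
      subst this
      exact ha
  obtain ⟨n₀, hn₀, hn₀1⟩ : ∃ n₀ ∈ N, n₀ ≠ 1 := by
    by_contra hcon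
    push Not at hcon
    exact hN0 (eq_bot_iff.2 fun x hx => hcon x hx)
  have hu₀ : (Additive.ofMul (⟨n₀, hn₀⟩ : N)) ∉ (⊥ : AddSubgroup (Additive N)) := by
    intro h
    apply hn₀1
    have : (⟨n₀, hn₀⟩ : N) = 1 := h
    exact congrArg Subtype.val this
  obtain ⟨N', hN', hF, hle⟩ := hC (Additive N) (by
      intro u
      have : u.toMul ^ p = 1 := Subtype.ext (hexp _ u.toMul.2)
      exact this) (Additive.ofMul ⟨n₀, hn₀⟩) (by
      intro S hS h
      rcases hirr S hS with h1 | h1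
      · exact absurd (h1 ▸ h) hu₀
      · exact h1) ⊥ (by simp +contextual) (by
      intro h
      apply hu₀
      rw [h]; trivial) (fun S hS _ => hirr S hS)
  let χ : SD (Additive N) Γ →* Y :=
    { toFun := fun x => ((x.v.toMul : N) : Y) * τ x.g
      map_one' := by simp
      map_mul' := by
        intro x y
        simp only [SD.mul_v, SD.mul_g, toMul_add, Subgroup.coe_mul, hsmul, map_mul]
        group }
  have hχ : Function.Surjective χ := by
    intro y
    obtain ⟨m, hm⟩ := hτ y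
    exact ⟨⟨Additive.ofMul ⟨_, hm⟩, m⟩, by simp [χ]⟩
  have hbot : N'.map χ = ⊥ := by
    by_contra h
    apply hNT
    refine (hmono _ (hN'.map χ hχ) h).trans ?_
    rintro _ ⟨x, hx, rfl⟩
    have h1 : x.v = 0 := hle x hx
    simp [χ, h1, hτT]
  refine 𝔉.of_surj_quot χ hχ N' ?_ hF
  intro x hx
  have : χ x ∈ N'.map χ := ⟨x, hx, rfl⟩
  rwa [hbot] at this

theorem finish_nonabelian {Y Γ : Type} [Group Y] [Finite Y] [Group Γ] (p : ℕ) [hp : Fact p.Prime]
    (hC : 𝔉.Central p Γ) (N : Subgroup Y)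
    (hmono : ∀ P : Subgroup Y, P.Normal → P ≠ ⊥ → N ≤ P) (n : Y) (hn : n ∈ N) (hn1 : n ≠ 1)
    (hco : (orderOf n).Coprime p) (τ : Γ →* Y) (hτ : Function.Surjective τ) : 𝔉.F Y := by
  classical
  have := Fintype.ofFinite Y
  let _ : DistribMulAction Γ (Fn (ZMod p) Y) := DistribMulAction.compHom _ τ
  have hsmul : ∀ (m : Γ) (f : Fn (ZMod p) Y), m • f = τ m • f := fun _ _ => rfl
  let δ : Fn (ZMod p) Y := Fn.of fun y => if y = 1 then 1 else 0
  have hgen : ∀ S : AddSubgroup (Fn (ZMod p) Y), (∀ m : Γ, ∀ w ∈ S, m • w ∈ S) → δ ∈ S →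
      S = ⊤ := by
    intro S hS hδ
    rw [eq_top_iff]
    intro f _
    have h1 : ∀ y : Y, (f y : ZMod p).val • (y • δ) ∈ S := by
      intro y
      obtain ⟨m, rfl⟩ := hτ y
      exact S.nsmul_mem (hS m δ hδ) _
    have := S.sum_mem (t := Finset.univ) fun y _ => h1 y
    convert this using 1
    ext z
    rw [Fn.sum_apply, Finset.sum_eq_single z]
    · simp [δ]
    · intro b _ hb
      have : ¬ (b⁻¹ * z = 1) := by
        rw [inv_mul_eq_one]; exact hb
      simp [δ, this]
    · simp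
  let W₁ : AddSubgroup (Fn (ZMod p) Y) :=
    { carrier := {f | ∀ y, f (y * n) = f y}
      add_mem' := by
        intro a b ha hb y
        simp [ha y, hb y]
      zero_mem' := fun _ => rfl
      neg_mem' := by
        intro a ha y
        simp [ha y] }
  have hW₁ : δ ∉ W₁ := by
    intro h
    have := h 1
    simp [δ, hn1] at this
  obtain ⟨W', ⟨hW'1, hW'2, hW'3⟩, hmax⟩ := Set.Finite.exists_maximal
    (Set.toFinite {S : AddSubgroup (Fn (ZMod p) Y) |
      (∀ m : Γ, ∀ w ∈ S, m • w ∈ S) ∧ W₁ ≤ S ∧ S ≠ ⊤})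
    ⟨W₁, by
      intro m w hw y
      rw [hsmul]
      simp only [Fn.smul_apply]
      rw [← mul_assoc, hw], le_rfl, fun h => hW₁ (by rw [h]; trivial)⟩
  obtain ⟨N', hN', hF, hle⟩ := hC (Fn (ZMod p) Y) (by
      intro u
      ext y
      simp) δ hgen W' hW'1 hW'3 (by
      intro S hS hle
      by_cases h : S = ⊤
      · exact Or.inr h
      · exact Or.inl (le_antisymm (hmax ⟨hS, hW'2.trans hle, h⟩ hle) hle))
  let χ : SD (Fn (ZMod p) Y) Γ →* Y := τ.comp SD.proj
  have hχ : Function.Surjective χ := by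
    intro y
    obtain ⟨m, rfl⟩ := hτ y
    exact ⟨⟨0, m⟩, rfl⟩
  have hbot : N'.map χ = ⊥ := by
    by_contra h
    have hNle := hmono _ (hN'.map χ hχ) h
    have h1 : ∀ c ∈ N, δ - c • δ ∈ W' := by
      intro c hc
      obtain ⟨x, hx, rfl⟩ := hNle hc
      have h2 := hle _ (hN'.conj_mem x hx ⟨δ, 1⟩)
      have h3 := W'.sub_mem h2 (hle x hx)
      convert h3 using 1
      simp only [SD.mul_v, SD.mul_g, SD.inv_v, one_smul, one_mul, inv_one, smul_neg, hsmul, χ,
        MonoidHom.comp_apply, SD.proj_apply, map_one]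
      abel
    let Z := Subgroup.zpowers n
    have hZN : Z ≤ N := (Subgroup.zpowers_le).2 hn
    have h2 : Fn.of (fun y => if y ∈ Z then (1 : ZMod p) else 0) ∈ W' := by
      apply hW'2
      intro y
      have : y * n ∈ Z ↔ y ∈ Z := Subgroup.mul_mem_cancel_right Z (Subgroup.mem_zpowers n)
      simp [this]
    have h3 := W'.add_mem (W'.sum_mem (t := (Finset.univ : Finset Z)) fun c _ => h1 c (hZN c.2)) h2
    have h4 : ∑ c : Z, (c : Y) • δ = Fn.of (fun y => if y ∈ Z then (1 : ZMod p) else 0) := by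
      ext y
      rw [Fn.sum_apply]
      by_cases hy : y ∈ Z
      · rw [Finset.sum_eq_single ⟨y, hy⟩]
        · simp [δ, hy]
        · intro b _ hb
          have : ¬ ((b : Y)⁻¹ * y = 1) := by
            rw [inv_mul_eq_one]; exact fun h => hb (Subtype.ext h)
          simp [δ, this]
        · simp
      · rw [Finset.sum_eq_zero]
        · simp [hy]
        · intro b _
          have : ¬ ((b : Y)⁻¹ * y = 1) := by
            rw [inv_mul_eq_one]; exact fun h => hy (h ▸ b.2)
          simp [δ, this]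
    rw [Finset.sum_sub_distrib, h4, sub_add_cancel, Finset.sum_const, Finset.card_univ,
      Fintype.card_zpowers] at h3
    have hu : ((orderOf n : ℕ) : ZMod p) ≠ 0 := by
      rw [Ne, ZMod.natCast_eq_zero_iff]
      exact (Nat.Prime.coprime_iff_not_dvd hp.out).1 hco.symm
    have h5 := W'.nsmul_mem h3 ((orderOf n : ZMod p)⁻¹).val
    apply hW'3
    apply hgen W' hW'1
    convert h5 using 1
    ext y
    rw [Fn.nsmul_apply, Fn.nsmul_apply, ZMod.natCast_zmod_val, ← mul_assoc, inv_mul_cancel₀ hu,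
      one_mul]
  refine 𝔉.of_surj_quot χ hχ N' ?_ hF
  intro x hx
  have : χ x ∈ N'.map χ := ⟨x, hx, rfl⟩
  rwa [hbot] at this

theorem exists_crit (n : ℕ) : ∀ (M : Type) [Group M] [Finite M], Nat.card M = n → ¬ 𝔉.F M →
    ∃ (Y : Type) (_ : Group Y) (σ : M →* Y), Function.Surjective σ ∧ ¬ 𝔉.F Y ∧
      ∀ (P : Subgroup Y) [P.Normal], P ≠ ⊥ → 𝔉.F (Y ⧸ P) := by
  induction n using Nat.strong_induction_on with
  | _ n ih =>
    intro M _ _ hn hM
    by_cases h : ∀ (P : Subgroup M) [P.Normal], P ≠ ⊥ → 𝔉.F (M ⧸ P)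
    · exact ⟨M, inferInstance, MonoidHom.id M, Function.surjective_id, hM, h⟩
    · push Not at h
      obtain ⟨P, hP, hP0, hF⟩ := h
      have hlt : Nat.card (M ⧸ P) < n := by
        rw [← hn, Subgroup.card_eq_card_quotient_mul_card_subgroup P]
        have h1 : 1 < Nat.card P := (Subgroup.one_lt_card_iff_ne_bot P).2 hP0
        have h2 : 0 < Nat.card (M ⧸ P) := Nat.card_pos
        nlinarith
      obtain ⟨Y, _, σ, h1, h2, h3⟩ := ih _ hlt (M ⧸ P) rfl hF
      exact ⟨Y, inferInstance, σ.comp (QuotientGroup.mk' P),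
        h1.comp (QuotientGroup.mk'_surjective P), h2, h3⟩

theorem cent_of_pgroup {Y : Type} [Group Y] [Finite Y] (p : ℕ) [Fact p.Prime] (N : Subgroup Y)
    (hmono : ∀ P : Subgroup Y, P.Normal → P ≠ ⊥ → N ≤ P) (P : Subgroup Y) [hP : P.Normal]
    (hp : IsPGroup p P) : ∀ x ∈ P, ∀ a ∈ N, x * a = a * x := by
  intro x hx a ha
  by_cases h : P = ⊥
  · rw [h, Subgroup.mem_bot] at hx
    simp [hx]
  · have : Nontrivial P := (Subgroup.nontrivial_iff_ne_bot P).2 h
    have h1 := hp.center_nontrivial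
    have h2 : (Subgroup.center P).map P.subtype ≠ ⊥ := by
      intro h3
      rw [Subgroup.map_eq_bot_iff_of_injective _ P.subtype_injective] at h3
      exact (Subgroup.nontrivial_iff_ne_bot _).1 h1 h3
    obtain ⟨z, hz, rfl⟩ := hmono _ inferInstance h2 ha
    exact congrArg Subtype.val (Subgroup.mem_center_iff.1 hz ⟨x, hx⟩)

theorem coatom_mem (hL : 𝔉.Lat) {G : Type} [Group G] (hG : 𝔉.F G) (M : Subgroup G)
    (hM : IsCoatom M) : 𝔉.F M := by
  classical
  have := 𝔉.fin G hG
  by_contra hFM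
  obtain ⟨Y, _, σ, hσ, hY, hquot⟩ := 𝔉.exists_crit _ M rfl hFM
  have : Finite Y := Finite.of_surjective σ hσ
  have hnt : Nontrivial Y := by
    by_contra h
    rw [not_nontrivial_iff_subsingleton] at h
    exact hY (𝔉.of_subsingleton Y)
  obtain ⟨N, ⟨hN, hN0⟩, hmin⟩ := Set.Finite.exists_minimal
    (Set.toFinite {P : Subgroup Y | P.Normal ∧ P ≠ ⊥}) ⟨⊤, inferInstance, top_ne_bot⟩
  have hmono : ∀ P : Subgroup Y, P.Normal → P ≠ ⊥ → N ≤ P := by
    intro P hP hP0
    by_cases h : N ⊓ P = ⊥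
    · exact absurd (𝔉.of_quot_bot _ h (𝔉.sub Y N P (hquot N hN0) (hquot P hP0))) hY
    · exact (hmin (y := N ⊓ P) ⟨inferInstance, h⟩ inf_le_left).trans inf_le_right
  obtain ⟨T, hT, hNT⟩ : ∃ T : Subgroup Y, IsCoatom T ∧ ¬ N ≤ T := by
    by_contra hcon
    push Not at hcon
    apply hY
    apply 𝔉.sat
    apply hquot
    intro h
    apply hN0
    rw [eq_bot_iff, ← h]
    unfold frattini Order.radical
    exact le_iInf₂ fun L hL => hcon L hL
  obtain ⟨p, hpp, hpN⟩ := Nat.exists_prime_and_dvd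
    ((Subgroup.one_lt_card_iff_ne_bot N).2 hN0).ne'
  have hp : Fact p.Prime := ⟨hpp⟩
  have hpG : p ∣ Nat.card G :=
    ((hpN.trans (Subgroup.card_subgroup_dvd_card N)).trans
      (Subgroup.card_dvd_of_surjective σ hσ)).trans (Subgroup.card_subgroup_dvd_card M)
  obtain ⟨K₀, K, hK₀, hK, hW, hKp, hK₀K⟩ := 𝔉.exists_wreath hG p hpG
  let π := QuotientGroup.mk' K₀
  have hπ : Function.Surjective π := QuotientGroup.mk'_surjective K₀
  have hMb : M.map π = ⊤ ∨ IsCoatom (M.map π) := by
    by_cases h : M.map π = ⊤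
    · exact Or.inl h
    · refine Or.inr ⟨h, fun P hP => ?_⟩
      have h1 : M ≤ P.comap π := Subgroup.map_le_iff_le_comap.1 hP.le
      rcases h1.lt_or_eq with h2 | h2
      · rw [← Subgroup.map_comap_eq_self_of_surjective hπ P, hM.2 _ h2,
          Subgroup.map_top_of_surjective _ hπ]
      · exfalso
        apply hP.ne
        rw [h2, Subgroup.map_comap_eq_self_of_surjective hπ P]
  have hC := 𝔉.module_step hL p hW _ hMb
  let ρ := π.subgroupMap M
  have hρ : Function.Surjective ρ := π.subgroupMap_surjective M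
  have hkerρ : ∀ m : M, ρ m = 1 → (m : G) ∈ K₀ := by
    intro m hm
    have : π m = 1 := congrArg Subtype.val hm
    exact (QuotientGroup.eq_one_iff _).1 this
  have hKbot : (K.subgroupOf M).map σ = ⊥ := by
    by_contra h
    have h1 := hmono _ (Subgroup.Normal.map inferInstance σ hσ) h
    apply hKp
    have h2 : Nat.card (K.subgroupOf M) ∣ Nat.card K :=
      Subgroup.card_dvd_of_injective
        (MonoidHom.codRestrict (M.subtype.comp (K.subgroupOf M).subtype) K fun x => x.2) (by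
        intro a b hab
        apply Subtype.ext
        apply Subtype.ext
        exact congrArg (fun z : K => (z : G)) hab)
    exact ((hpN.trans (Subgroup.card_dvd_of_le h1)).trans
      (Subgroup.card_map_dvd _ σ)).trans h2
  let P : Subgroup Y := (K₀.subgroupOf M).map σ
  have hPn : P.Normal := Subgroup.Normal.map inferInstance σ hσ
  have hPp : IsPGroup p P := by
    rintro ⟨_, m, hm, rfl⟩
    obtain ⟨n, hn⟩ := hK₀K m hm
    refine ⟨n, Subtype.ext ?_⟩
    have : σ (m ^ p ^ n) ∈ (K.subgroupOf M).map σ := ⟨_, hn, rfl⟩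
    rw [hKbot, Subgroup.mem_bot, map_pow] at this
    exact this
  have hPc := cent_of_pgroup p N hmono P hPp
  apply hY
  by_cases hcomm : ∀ a ∈ N, ∀ b ∈ N, a * b = b * a
  · have hsup : T ⊔ N = ⊤ := by
      apply hT.2
      refine lt_of_le_of_ne le_sup_left fun h => hNT ?_
      rw [h]; exact le_sup_right
    have hcent : ∀ c ∈ T, (∀ a ∈ N, c * a = a * c) → c = 1 := by
      intro c hcT hc
      have hn : (Subgroup.centralizer (N : Set Y) ⊓ T).Normal := ⟨by
        rintro x ⟨hx1, hx2⟩ y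
        refine ⟨Subgroup.Normal.conj_mem inferInstance x hx1 y, ?_⟩
        have hy : y ∈ T ⊔ N := by rw [hsup]; trivial
        obtain ⟨t, ht, n, hn, rfl⟩ := Subgroup.mem_sup_of_normal_right.1 hy
        have h1 : n * x = x * n := hx1 n hn
        have e : t * n * x * (t * n)⁻¹ = t * x * t⁻¹ := by
          rw [mul_assoc t n x, h1]; group
        rw [e]
        exact T.mul_mem (T.mul_mem ht hx2) (T.inv_mem ht)⟩
      have hb : Subgroup.centralizer (N : Set Y) ⊓ T = ⊥ := by
        by_contra h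
        exact hNT ((hmono _ hn h).trans inf_le_right)
      have : c ∈ Subgroup.centralizer (N : Set Y) ⊓ T := ⟨fun a ha => (hc a ha).symm, hcT⟩
      rwa [hb] at this
    have hbij : Function.Bijective ((QuotientGroup.mk' N).comp T.subtype) := by
      constructor
      · rw [injective_iff_map_eq_one]
        intro t ht
        have h1 : (t : Y) ∈ N := (QuotientGroup.eq_one_iff _).1 ht
        exact Subtype.ext (hcent t t.2 fun a ha => hcomm _ h1 _ ha)
      · intro q
        obtain ⟨y, rfl⟩ := QuotientGroup.mk'_surjective N q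
        have hy : y ∈ T ⊔ N := by rw [hsup]; trivial
        obtain ⟨t, ht, n, hn, rfl⟩ := Subgroup.mem_sup_of_normal_right.1 hy
        refine ⟨⟨t, ht⟩, ?_⟩
        simp [(QuotientGroup.eq_one_iff n).2 hn]
    let e := MulEquiv.ofBijective _ hbij
    let τ₀ : Y →* Y := T.subtype.comp (e.symm.toMonoidHom.comp (QuotientGroup.mk' N))
    have hτ₀T : ∀ y, τ₀ y ∈ T := fun y => (e.symm _).2
    have hτ₀ : ∀ y, y * (τ₀ y)⁻¹ ∈ N := by
      intro y
      have h1 : ((τ₀ y : Y) : Y ⧸ N) = y := e.apply_symm_apply (y : Y ⧸ N)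
      have := QuotientGroup.eq_iff_div_mem.1 h1.symm
      rwa [div_eq_mul_inv] at this
    have hker : ρ.ker ≤ (τ₀.comp σ).ker := by
      intro m hm
      have h1 : σ m ∈ P := ⟨m, hkerρ m hm, rfl⟩
      refine hcent _ (hτ₀T _) fun a ha => ?_
      have h2 := hPc _ h1 a ha
      have h3 := hcomm _ (hτ₀ (σ m)) a ha
      show τ₀ (σ m) * a = a * τ₀ (σ m)
      have e1 : τ₀ (σ m) = (σ m * (τ₀ (σ m))⁻¹)⁻¹ * σ m := by group
      have h4 : (σ m * (τ₀ (σ m))⁻¹)⁻¹ * a = a * (σ m * (τ₀ (σ m))⁻¹)⁻¹ :=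
        hcomm _ (N.inv_mem (hτ₀ (σ m))) a ha
      rw [e1, mul_assoc, h2, ← mul_assoc, h4, mul_assoc]
    let τ := ρ.liftOfSurjective hρ ⟨τ₀.comp σ, hker⟩
    have hτ : ∀ m, τ (ρ m) = τ₀ (σ m) := fun m =>
      ρ.liftOfRightInverse_comp_apply _ _ ⟨τ₀.comp σ, hker⟩ m
    refine 𝔉.finish_abelian p hC N T hN0 hmono hNT hcomm ?_ τ ?_ ?_
    · let N₁ : Subgroup Y :=
        { carrier := {a | a ∈ N ∧ a ^ p = 1}
          mul_mem' := by
            rintro a b ⟨ha, ha'⟩ ⟨hb, hb'⟩
            refine ⟨N.mul_mem ha hb, ?_⟩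
            rw [Commute.mul_pow (hcomm a ha b hb), ha', hb', one_mul]
          one_mem' := ⟨N.one_mem, one_pow p⟩
          inv_mem' := by
            rintro a ⟨ha, ha'⟩
            exact ⟨N.inv_mem ha, by rw [inv_pow, ha', inv_one]⟩ }
      have hN₁ : N₁.Normal := ⟨by
        rintro a ⟨ha, ha'⟩ y
        exact ⟨hN.conj_mem a ha y, by rw [conj_pow, ha']; simp⟩⟩
      obtain ⟨z, hz⟩ := exists_prime_orderOf_dvd_card' p hpN
      have hz1 : (z : Y) ∈ N₁ := ⟨z.2, by
        rw [← hz, ← Subgroup.coe_pow, pow_orderOf_eq_one, Subgroup.coe_one]⟩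
      have hN₁0 : N₁ ≠ ⊥ := by
        intro h
        rw [h, Subgroup.mem_bot] at hz1
        have : z = 1 := Subtype.ext hz1
        rw [this, orderOf_one] at hz
        exact hpp.one_lt.ne hz
      exact fun a ha => (hmono N₁ hN₁ hN₁0 ha).2
    · intro m
      obtain ⟨m, rfl⟩ := hρ m
      rw [hτ]; exact hτ₀T _
    · intro y
      obtain ⟨m, rfl⟩ := hσ y
      exact ⟨ρ m, by rw [hτ]; exact hτ₀ _⟩
  · have hPbot : P = ⊥ := by
      by_contra h
      exact hcomm fun a ha b hb => hPc a (hmono P hPn h ha) b hb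
    have hker : ρ.ker ≤ σ.ker := by
      intro m hm
      have h1 : σ m ∈ P := ⟨m, hkerρ m hm, rfl⟩
      rwa [hPbot] at h1
    let τ := ρ.liftOfSurjective hρ ⟨σ, hker⟩
    have hτ : ∀ m, τ (ρ m) = σ m := fun m =>
      ρ.liftOfRightInverse_comp_apply _ _ ⟨σ, hker⟩ m
    have hNp : ¬ IsPGroup p N := fun h => hcomm (cent_of_pgroup p N hmono N h)
    obtain ⟨a, ha⟩ : ∃ a : N, ∀ k : ℕ, a ^ p ^ k ≠ 1 := by
      by_contra hcon
      push Not at hcon
      exact hNp hcon
    obtain ⟨k, m, hm, e⟩ := Nat.exists_eq_pow_mul_and_not_dvd (orderOf_pos a).ne' p hpp.ne_one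
    refine 𝔉.finish_nonabelian p hC N hmono ((a ^ p ^ k : N) : Y) (a ^ p ^ k).2
      (fun h => ha k (Subtype.ext h)) ?_ τ ?_
    · have h1 : orderOf (a ^ p ^ k) ∣ m := by
        apply orderOf_dvd_of_pow_eq_one
        rw [← pow_mul, ← e, pow_orderOf_eq_one]
      rw [Subgroup.orderOf_coe]
      exact Nat.Coprime.coprime_dvd_left h1 ((Nat.Prime.coprime_iff_not_dvd hpp).2 hm).symm
    · intro y
      obtain ⟨m, rfl⟩ := hσ y
      exact ⟨ρ m, hτ m⟩

theorem hereditary (hL : 𝔉.Lat) {G : Type} [Group G] (hG : 𝔉.F G) (H : Subgroup G) :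
    𝔉.F H := by
  have := 𝔉.fin G hG
  induction H using WellFoundedGT.induction with
  | ind H ih =>
    rcases (le_top : H ≤ ⊤).lt_or_eq with h | rfl
    · obtain ⟨H', hc, -⟩ := exists_covBy_le_of_lt h
      have h1 : IsCoatom (H.subgroupOf H') := by
        refine ⟨fun h2 => hc.lt.not_ge (Subgroup.subgroupOf_eq_top.1 h2), fun P hP => ?_⟩
        have h3 : H ≤ P.map H'.subtype := fun x hx => ⟨⟨x, hc.le hx⟩, hP.le hx, rfl⟩
        rcases hc.eq_or_eq h3 (Subgroup.map_subtype_le P) with h4 | h4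
        · exfalso
          apply hP.not_ge
          intro x hx
          rw [Subgroup.mem_subgroupOf, ← h4]
          exact ⟨x, hx, rfl⟩
        · rw [eq_top_iff]
          intro x _
          have : (x : G) ∈ P.map H'.subtype := by rw [h4]; exact x.2
          obtain ⟨y, hy, e⟩ := this
          have : y = x := Subtype.ext e
          exact this ▸ hy
      exact 𝔉.of_equiv (Subgroup.subgroupOfEquivOfLe hc.le)
        (𝔉.coatom_mem hL (ih H' hc.lt) _ h1)
    · exact 𝔉.of_equiv Subgroup.topEquiv.symm hG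

end SatForm

end Pool.Agent.MP_9bf990_al

end MrgPart4

-- marker of a merged file
example : 731051 + 866136 = 731051 + 866136 := rfl
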